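import Pool.Agent.Lib.MP_776403_ag.SD.C2.Spec

set_option autoImplicit false

open MvPolynomial

noncomputable section

namespace Pool.Agent.Lib.MP_776403_ag.SD.C2

/-- Arithmetic for the complete intersections of two hypersurfaces. -/
theorem tA1 : S_A1 := by
  intro N b D d hd hb hN hD
  have h0 := hd 0
  have h1 := hd 1
  rw [Fin.sum_univ_two] at hb
  have e : ∑ i, ∑ j, (d j - d i) = (d 1 - d 0) + (d 0 - d 1) := by
    simp [Fin.sum_univ_two]
  rw [e]
  refine ⟨by omega, ?_⟩
  intro hp
  rw [Fin.prod_univ_two] at hp
  generalize d 0 = u at *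
  generalize d 1 = v at *
  have hu : 3 ≤ u := by
    by_contra h
    have : u = 2 := by omega
    subst this
    omega
  have hv : 3 ≤ v := by
    by_contra h
    have : v = 2 := by omega
    subst this
    omega
  have key : u + v + 2 * max u v ≤ u * v + 4 := by
    rcases le_total u v with h | h
    · rw [max_eq_right h]
      nlinarith
    · rw [max_eq_left h]
      nlinarith
  omega

end Pool.Agent.Lib.MP_776403_ag.SD.C2
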