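import Pool.Agent.Lib.MP_776403_ag.SD.C2.Spec
import Pool.Agent.Lib.MP_776403_ag.SD.FR.As
import Pool.Agent.Lib.MP_776403_ag.SD.FR.MT

/-!
# Codimension 2, one general point (proof of `C2.S_As`)
-/

set_option autoImplicit false

open MvPolynomial

noncomputable section

namespace Pool.Agent.Lib.MP_776403_ag.SD.C2

variable {N : ℕ}

open FR.AsAux FR.MTAux U.V3Aux in
/-- (As) ONE GENERAL POINT, exact dimensions. -/
theorem tAs : S_MX → S_SI → S_SJ → S_NS → S_ND → FR.S_B2 → FR.S_FE → FR.S_R7 → UN.S_U5 →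
    UN.S_U6w → U.S_VT → S_As := by
  intro hMX hSI hSJ hNS hND hB2 hE h7 h5 h6 hVT N c b D I q0 hU h2b
  have hcb := hU.cb
  have hpos := hU.pos
  obtain ⟨x, hx, hx0, hfree⟩ := gen_pt hU
  obtain ⟨L⟩ := eLoc N c I hU.smooth x hx hx0
  obtain ⟨J₀, hF0, hJ0⟩ := cut_cone hU hx hx0
  have hpt0 : ∃ z ∈ zer J₀, z ≠ 0 := ex_pt_dim hF0.prime hF0.hom (m := N - b) (by omega) hJ0
  have hq : ∀ z ∈ zer J₀, z ≠ 0 → ∀ ξ : Fin c → ℂ, ξ ≠ 0 → U.qv L ξ 0 z ≠ 0 :=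
    hB2 N c b (N - b) I J₀ x hpos hcb hU.prime hU.hom hU.nd hU.smooth hF0 hJ0 (by omega) L
  obtain ⟨d, J, B, hd, hs, hJJ, hF, hpt, hB, hJ⟩ :=
    hMX N c b I J₀ x hpos hU.prime hU.hom hU.smooth hF0 hpt0 L hq (N - b) hJ0
  have hd1 : ∀ i, 1 ≤ d i := fun i => le_trans (by norm_num) (hd i)
  refine ⟨d, hd, hs, fun hm => ?_, fun hm => ?_⟩
  · obtain ⟨sig, hsig, hind⟩ :=
      hSI N c b I J x hpos hU.prime hU.hom hU.smooth hF L d B hd hs hB
    have hsj := hSJ N c I J d sig hU.prime hU.hom hU.smooth hF.prime hF.hom hF.le hpt hd1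
      hsig hind
    have hdvd := hNS N c (c + 1) I J d q0 hU.prime hU.hom hU.smooth hF.prime hF.hom hF.le
      (tMono _ J _ _ hm hJ) (by omega) hU.qp hsj
    have h1 := hND c d q0 hdvd
    rw [hU.q1] at h1
    exact_mod_cast h1.symm
  · obtain ⟨l, hl1, hlx, hlJ⟩ := hF.lam
    obtain ⟨lam, rfl⟩ := exists_lf l hl1
    have hlam : LI.dp lam x = 1 := by
      rw [← eval_lf]
      exact hlx
    have hcn : UN.Cn I x lam J := ⟨hx0, hx, hlam, hF.prime, hF.hom, hlJ, hF.line⟩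
    have hind : LinearIndependent ℂ fun i => U.xv L (B i) := xv_ind L hB.bas
    have hty : ∀ z ∈ zer J, z ≠ 0 → IsLine I x z ∧
        ∃ s : Fin c → (Fin (N + 1) → Polynomial ℂ),
          UN.Ty I x z d s ∧ ∀ i l, (s i l).coeff 0 = U.xv L (B i) l :=
      hVT N c b I J x hpos hU.prime hU.hom hU.smooth hF L d B hd1 hs hB
    have hξ : ∀ i, U.xv L (B i) ∈ CN I x := by
      intro i
      obtain ⟨z, hzJ, hz0⟩ := hpt
      obtain ⟨hl, s, hTy, hs'⟩ := hty z hzJ hz0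
      exact xi_mem hU.prime hU.hom hU.smooth hl hTy hs' i
    obtain ⟨F, f, hEq⟩ := hE N c I hU.prime hU.hom hU.smooth x lam hx hx0 hlam _ hξ
    have hloc : ∀ z ∈ zer J, z ≠ 0 →
        UN.JL I x ≤ Ideal.span (Set.range (UN.gT d F x)) ⊔ ptI z * UN.JL I x := by
      intro z hzJ hz0
      obtain ⟨hl, s, hTy, hs'⟩ := hty z hzJ hz0
      exact h5 N c I d hU.prime hU.hom hU.smooth x z hl s hTy F
        fun i => ⟨hEq.mem i, fun l => by rw [hEq.gr i, hs' i l]⟩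
    obtain ⟨J', hLC⟩ := h6 N c I d hU.prime hU.hom hU.smooth hd1 x lam _ J hcn
      (tMono _ J _ _ (by rw [hs]; exact hm) hJ) hind
      (fun z hz hz0 => by rw [hs]; exact hF.deg z hz hz0) hfree F
      (fun i => ⟨hEq.mem i, hEq.gr i⟩) hloc
    exact h7 N c b D I q0 hU h2b x lam d _ F f hd hs hEq hind J' hLC

end Pool.Agent.Lib.MP_776403_ag.SD.C2
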