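import Pool.Agent.Lib.MP_776403_ag.SD.C2.Spec
import Pool.Agent.Lib.MP_776403_ag.SD.FR.SpecM
import Pool.Agent.Lib.MP_776403_ag.SD.UK.Spec2

/-!
# MP_776403, codimension 2: assembly (helper50)
-/

set_option autoImplicit false

open MvPolynomial

noncomputable section

namespace Pool.Agent.Lib.MP_776403_ag.SD.C2

namespace C2Aux

/-- the sum of the first `s` odd numbers, written as a truncated sum -/
theorem sum_odd : ∀ s : ℕ, ∑ j ∈ Finset.range (2 * s), (2 * s - 1 - 2 * j) = s * s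
  | 0 => by simp
  | s + 1 => by
    have h1 : 2 * (s + 1) = 2 * s + 1 + 1 := by ring
    rw [h1, Finset.sum_range_succ']
    have h2 : ∀ j ∈ Finset.range (2 * s + 1), (2 * s + 1 + 1 - 1 - 2 * (j + 1)) = (2 * s - 1 - 2 * j) := by
      intro j _
      omega
    rw [Finset.sum_congr rfl h2, Finset.sum_range_succ, sum_odd s]
    have h3 : 2 * s - 1 - 2 * (2 * s) = 0 := by omega
    have h4 : 2 * s + 1 + 1 - 1 - 2 * 0 = 2 * s + 1 := by omega
    rw [h3, h4]
    ring

end C2Aux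

theorem tC2 : FR.S_W1 → FR.S_W1q → FR.S_Ca → FR.S_MT → UK.S_Ns → CE.S_CE → S_H2 → S_E1 → S_As → S_A1 → S_C2 := by
  intro hW1 hW1q hCa hMT hNs hCE hH2 hE1 hAs hA1 N n D I hN hD1 hDn hI hI' hnd hsm hdeg
  subst hN
  obtain ⟨b, q0, hB⟩ := hW1 (n + 2) 2 D I le_rfl (by omega) hI hI' hnd hsm hdeg
  have hcb : 2 ≤ b := hB.cb
  have hbN : b + 2 + 1 ≤ n + 2 := hB.bN
  have h4 : 2 * b ≤ n + 2 → 4 ≤ b := by
    intro h
    have h5 := (hMT (n + 2) 2 b D I q0 hB h).1
    omega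
  have hN7 : 3 * 2 + 1 ≤ n + 2 := by
    by_contra hc
    have h5 := h4 (by omega)
    omega
  have hca := hCa (n + 2) 2 b D I q0 le_rfl hB hN7
  have hD4 : 4 ≤ D := by
    by_contra hc
    have hD : D = 1 ∨ D = 2 ∨ D = 3 := by omega
    rcases hD with rfl | rfl | rfl
    · simp at hca
      have h5 := h4 (by omega)
      omega
    · simp [Finset.sum_range_succ] at hca
      have h5 := h4 (by omega)
      omega
    · simp [Finset.sum_range_succ] at hca
      have h5 := h4 (by omega)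
      omega
  have hb3 : 3 ≤ b := by
    by_contra hc
    have h5 := h4 (by omega)
    omega
  have hns := hNs 2 (b - 2) D (by norm_num) hD1 hca (by omega)
  rcases Nat.lt_or_ge (2 * (b - 2)) D with hlt | hge
  · -- `D ≥ 2 s + 1`
    obtain ⟨d, hd2, hds, hp, hG⟩ := hAs (n + 2) 2 b D I q0 hB (by omega)
    obtain ⟨h5, h6⟩ := hA1 (n + 2) b D d hd2 hds (by omega) (by omega)
    obtain ⟨G, hG1, hG2⟩ := hG (h6 (hp h5))
    exact ⟨d, G, fun i => ⟨hd2 i, hG1 i⟩, hG2⟩
  · -- `D = 2 s`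
    obtain ⟨s, rfl⟩ : ∃ s, b = s + 2 := ⟨b - 2, by omega⟩
    have hs2 : s + 2 - 2 = s := by omega
    rw [hs2] at hge hns hca
    have hDs : D = 2 * s := by omega
    subst hDs
    have hq := hW1q (n + 2) 2 (s + 2) (2 * s) I q0 le_rfl hB hN7
    have hq2 : (Polynomial.derivative q0).eval 1 =
        ((∑ j ∈ Finset.range (2 * s), (2 * s - 1 - 2 * j) : ℕ) : ℤ) := by
      rw [C2Aux.sum_odd]
      push_cast at hq ⊢
      have h5 : (2 : ℤ) * (Polynomial.derivative q0).eval 1 = 2 * (s * s) := by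
        rw [hq]
        ring
      linarith
    obtain ⟨jj, hj1, hj2⟩ := hCE (n + 2) 2 (2 * s) I q0 (by norm_num) (by omega) hD1 hI hI' hnd hB.qp
      hB.q1 hq2
    have hs : 2 ≤ s := by omega
    obtain ⟨G, hG1, hG2⟩ := hE1 (n + 2) s I hs hI hI' hnd (fun k => by
      rw [hj2 k]
      exact hH2 n s jj hs hj1 k)
    refine ⟨![2, s], G, fun i => ⟨?_, hG1 i⟩, hG2⟩
    fin_cases i
    · exact le_rfl
    · exact hs

end Pool.Agent.Lib.MP_776403_ag.SD.C2
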