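import Pool.Agent.Lib.MP_776403_ag.SD.C2.Spec
import Pool.Agent.Lib.MP_776403_ag.SD.UN.FHc

/-!
# MP_776403, codimension 2, module E1: the Hilbert function of `(2, s)` implies complete intersection
-/

set_option autoImplicit false

open MvPolynomial

noncomputable section

namespace Pool.Agent.Lib.MP_776403_ag.SD.C2

namespace E1Aux

open UN.FHcAux

variable {N : ℕ}

/-- fewer elements of degree `k` modulo `I` than modulo `J`: a form in `I`, not in `J` -/
theorem exForm (I J : Ideal (Sx N)) (h : J ≤ I) (k : ℕ)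
    (hlt : Module.finrank ℂ (gr I k) < Module.finrank ℂ (gr J k)) :
    ∃ F ∈ I, F.IsHomogeneous k ∧ F ∉ J := by
  have h1 := rn J I h k
  have h2 : (gr J k ⊓ LinearMap.ker (pr J I h) : Submodule ℂ (Sx N ⧸ J)) ≠ ⊥ := by
    intro h3
    rw [h3, finrank_bot] at h1
    omega
  obtain ⟨w, hw, hw0⟩ := Submodule.exists_mem_ne_zero_of_ne_bot h2
  obtain ⟨hw1, hw2⟩ := Submodule.mem_inf.1 hw
  obtain ⟨F, hF, rfl⟩ := (mem_gr J k w).1 hw1
  rw [LinearMap.mem_ker, pr_mk, Ideal.Quotient.eq_zero_iff_mem] at hw2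
  refine ⟨F, hw2, hF, fun h4 => hw0 ?_⟩
  rw [Ideal.Quotient.eq_zero_iff_mem]
  exact h4

/-- equal Hilbert functions -/
theorem eqId (I J : Ideal (Sx N)) (h : J ≤ I) (hI : IsHom I)
    (he : ∀ k, Module.finrank ℂ (gr I k) = Module.finrank ℂ (gr J k)) : I = J := by
  refine le_antisymm ?_ h
  intro F hF
  rw [← sum_homogeneousComponent F]
  refine Ideal.sum_mem _ fun m _ => ?_
  have h1 := rn J I h m
  have := fin_gr J m
  have h2 : (gr J m ⊓ LinearMap.ker (pr J I h) : Submodule ℂ (Sx N ⧸ J)) = ⊥ := by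
    have h4 : Module.Finite ℂ (gr J m ⊓ LinearMap.ker (pr J I h) : Submodule ℂ (Sx N ⧸ J)) :=
      Submodule.finiteDimensional_of_le (inf_le_left : (gr J m ⊓ LinearMap.ker (pr J I h)) ≤ gr J m)
    refine Submodule.finrank_eq_zero.1 ?_
    have := he m
    omega
  have h3 : Ideal.Quotient.mk J (homogeneousComponent m F) ∈
      (gr J m ⊓ LinearMap.ker (pr J I h) : Submodule ℂ (Sx N ⧸ J)) := by
    refine Submodule.mem_inf.2 ⟨(mem_gr J m _).2 ⟨_, homogeneousComponent_isHomogeneous m F, rfl⟩, ?_⟩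
    rw [LinearMap.mem_ker, pr_mk, Ideal.Quotient.eq_zero_iff_mem]
    exact hI F hF m
  rw [h2, Submodule.mem_bot, Ideal.Quotient.eq_zero_iff_mem] at h3
  exact h3

theorem hc0 (N k : ℕ) : hcG (![] : Fin 0 → ℕ) N k = ((N + k).choose N : ℤ) := by
  rw [hcG_H]
  simp [HH, b_nat]

theorem hc1 (N k : ℕ) : hcG (![2] : Fin 1 → ℕ) N k =
    ((N + k).choose N : ℤ) - (if 2 ≤ k then ((N + (k - 2)).choose N : ℤ) else 0) := by
  rw [hcG_rec]
  have h1 : (fun i : Fin 0 => (![2] : Fin 1 → ℕ) i.castSucc) = ![] := by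
    funext i
    exact i.elim0
  rw [h1, hc0, hc0]
  rfl

theorem hc2 (N s k : ℕ) : hcG (![2, s] : Fin 2 → ℕ) N k =
    hcG (![2] : Fin 1 → ℕ) N k - (if s ≤ k then hcG (![2] : Fin 1 → ℕ) N (k - s) else 0) := by
  rw [hcG_rec]
  have h1 : (fun i : Fin 1 => (![2, s] : Fin 2 → ℕ) i.castSucc) = ![2] := by
    funext i
    fin_cases i
    rfl
  rw [h1]
  rfl

theorem hc1_zero (N : ℕ) : hcG (![2] : Fin 1 → ℕ) N 0 = 1 := by
  rw [hc1]
  simp

theorem hc1_pos (N k : ℕ) (hk : k = 0) : 0 < hcG (![2] : Fin 1 → ℕ) N k := by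
  rw [hk, hc1_zero]
  exact one_pos

theorem im0 {r : ℕ} (f : Fin (r + 1) → Sx N) : f '' {i | i < 0} = ∅ := by
  rw [Set.image_eq_empty]
  ext i
  simp

end E1Aux

open E1Aux in
theorem tE1 : S_Pr → UN.S_FHc → S_E1 := by
  intro hPr hFHc N s I hs hp hh hlin hhf
  -- the ideal zero
  have hz := hFHc N 0 (![] : Fin 0 → Sx N) ![] (fun i => i.elim0) (fun i => i.elim0) (fun i => i.elim0)
  have hb : Ideal.span (Set.range (![] : Fin 0 → Sx N)) ≤ I := by
    rw [Ideal.span_le]
    rintro _ ⟨i, rfl⟩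
    exact i.elim0
  obtain ⟨F, hFI, hF2, hF0⟩ := exForm I _ hb 2 (by
    have h1 := hz 2
    have h2 := hhf 2
    rw [hc0] at h1
    rw [hc2, hc1, if_pos le_rfl] at h2
    have h3 : 0 < (N + (2 - 2)).choose N := Nat.choose_pos (by omega)
    have h4 : (0 : ℤ) ≤ (if s ≤ 2 then hcG (![2] : Fin 1 → ℕ) N (2 - s) else 0) := by
      split_ifs with h5
      · exact (hc1_pos N (2 - s) (by omega)).le
      · exact le_rfl
    omega)
  have hFne : F ≠ 0 := fun h => hF0 (h ▸ Ideal.zero_mem _)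
  have hFp : (Ideal.span {F}).IsPrime := hPr N I hp hh hlin F hFI hF2 hFne
  have hr1 : Set.range (![F] : Fin 1 → Sx N) = {F} := by
    simp
  have hreg0 : ∀ z : Sx N, F * z ∈ Ideal.span (∅ : Set (Sx N)) → z ∈ Ideal.span (∅ : Set (Sx N)) := by
    intro z hz
    rw [Ideal.span_empty, Ideal.mem_bot] at hz ⊢
    exact (mul_eq_zero.1 hz).resolve_left hFne
  have h1 := hFHc N 1 ![F] ![2] (fun i => by fin_cases i; exact Nat.succ_le_succ (Nat.zero_le 1))
    (fun i => by fin_cases i; exact hF2)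
    (fun j z hz => by
      fin_cases j
      change F * z ∈ Ideal.span ((![F] : Fin 1 → Sx N) '' {i | i < 0}) at hz
      change z ∈ Ideal.span ((![F] : Fin 1 → Sx N) '' {i | i < 0})
      rw [im0] at hz ⊢
      exact hreg0 z hz)
  rw [hr1] at h1
  obtain ⟨G, hGI, hGs, hGF⟩ := exForm I (Ideal.span {F}) ((Ideal.span_singleton_le_iff_mem I).2 hFI) s (by
    have h2 := h1 s
    have h3 := hhf s
    rw [hc2, if_pos le_rfl, Nat.sub_self, hc1_zero] at h3
    omega)
  have h2 := hFHc N 2 ![F, G] ![2, s]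
    (fun i => by
      fin_cases i
      · exact Nat.succ_le_succ (Nat.zero_le 1)
      · change 1 ≤ s
        omega)
    (fun i => by
      fin_cases i
      · exact hF2
      · exact hGs)
    (fun j z hz => by
      fin_cases j
      · change F * z ∈ Ideal.span ((![F, G] : Fin 2 → Sx N) '' {i | i < 0}) at hz
        change z ∈ Ideal.span ((![F, G] : Fin 2 → Sx N) '' {i | i < 0})
        rw [im0] at hz ⊢
        exact hreg0 z hz
      · change G * z ∈ Ideal.span ((![F, G] : Fin 2 → Sx N) '' {i | i < 1}) at hz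
        change z ∈ Ideal.span ((![F, G] : Fin 2 → Sx N) '' {i | i < 1})
        have h3 : (![F, G] : Fin 2 → Sx N) '' {i | i < 1} = {F} := by
          ext w
          constructor
          · rintro ⟨i, hi, rfl⟩
            have h4 : i = 0 := by
              have h5 : i < 1 := hi
              exact Fin.lt_one_iff i |>.1 h5
            rw [h4]
            rfl
          · intro hw
            rw [Set.mem_singleton_iff] at hw
            exact ⟨0, by simp, by rw [hw]; rfl⟩
        rw [h3] at hz ⊢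
        exact (hFp.mem_or_mem hz).resolve_left hGF)
  have hle : Ideal.span (Set.range ![F, G]) ≤ I := by
    rw [Ideal.span_le]
    rintro _ ⟨i, rfl⟩
    fin_cases i
    · exact hFI
    · exact hGI
  refine ⟨![F, G], fun i => by
      fin_cases i
      · exact hF2
      · exact hGs, eqId I _ hle hh fun k => ?_⟩
  have h3 := h2 k
  have h4 := hhf k
  omega

end Pool.Agent.Lib.MP_776403_ag.SD.C2
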