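import Pool.Agent.Lib.MP_776403_ag.SD.C2.Spec

/-!
# MP_776403, codimension 2, module H2: the Hilbert function of a complete intersection `(2, s)`
-/

set_option autoImplicit false

open MvPolynomial

noncomputable section

namespace Pool.Agent.Lib.MP_776403_ag.SD.C2

namespace H2Aux

/-- The series of the binomials. -/
def B (n : ℕ) : PowerSeries ℤ := PowerSeries.mk fun m => (Nat.choose (n + m) n : ℤ)

theorem B_mul (n : ℕ) : B n * (1 - PowerSeries.X) ^ (n + 1) = 1 :=
  PowerSeries.mk_add_choose_mul_one_sub_pow_eq_one ℤ n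

theorem coeff_XB (n a k : ℕ) : PowerSeries.coeff k (PowerSeries.X ^ a * B n) =
    if a ≤ k then (Nat.choose (n + (k - a)) n : ℤ) else 0 := by
  rw [PowerSeries.coeff_X_pow_mul']
  split_ifs with h
  · simp [B]
  · rfl

/-- The number of the `i` with `jj i = m`. -/
theorem card_eq (s : ℕ) (jj : Fin (2 * s) → ℕ) (m : ℕ) :
    (Finset.univ.filter fun i => jj i = m + 1).card + (Finset.univ.filter fun i => jj i ≤ m).card =
      (Finset.univ.filter fun i => jj i ≤ m + 1).card := by
  rw [← Finset.card_union_of_disjoint]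
  · congr 1
    ext i
    simp only [Finset.mem_union, Finset.mem_filter, Finset.mem_univ, true_and]
    omega
  · rw [Finset.disjoint_left]
    intro i h1 h2
    simp only [Finset.mem_filter, Finset.mem_univ, true_and] at h1 h2
    omega

theorem count (s : ℕ) (jj : Fin (2 * s) → ℕ) (hs : 2 ≤ s)
    (h : ∀ j : ℕ, (Finset.univ.filter fun i => jj i ≤ j).card = min (2 * s) (j * 2 + 1)) :
    ∑ i, (PowerSeries.X : PowerSeries ℤ) ^ (jj i) =
      (1 + PowerSeries.X) * ∑ k ∈ Finset.range s, PowerSeries.X ^ k := by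
  have e1 : ∀ m : ℕ, PowerSeries.coeff m (∑ i, (PowerSeries.X : PowerSeries ℤ) ^ (jj i)) =
      ((Finset.univ.filter fun i => jj i = m).card : ℤ) := by
    intro m
    rw [map_sum, Finset.card_filter]
    push_cast
    refine Finset.sum_congr rfl fun i _ => ?_
    rw [PowerSeries.coeff_X_pow]
    by_cases hh : jj i = m
    · rw [if_pos hh, if_pos hh.symm]
    · rw [if_neg hh, if_neg fun h' => hh h'.symm]
  have e2 : ∀ m : ℕ, PowerSeries.coeff m (∑ k ∈ Finset.range s, (PowerSeries.X : PowerSeries ℤ) ^ k) =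
      if m < s then 1 else 0 := by
    intro m
    rw [map_sum]
    simp only [PowerSeries.coeff_X_pow]
    rw [Finset.sum_ite_eq]
    simp only [Finset.mem_range]
  ext m
  rw [e1, add_mul, one_mul, map_add, e2]
  cases m with
  | zero =>
    rw [PowerSeries.coeff_zero_X_mul]
    have h0 := h 0
    have : (Finset.univ.filter fun i => jj i = 0).card = (Finset.univ.filter fun i => jj i ≤ 0).card := by
      congr 1
      ext i
      simp
    rw [this, h0]
    have : 0 < s := by omega
    rw [if_pos this]
    have : min (2 * s) (0 * 2 + 1) = 1 := by omega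
    rw [this]
    norm_num
  | succ m =>
    rw [PowerSeries.coeff_succ_X_mul, e2]
    have h1 := card_eq s jj m
    rw [h m, h (m + 1)] at h1
    by_cases a1 : m + 1 < s
    · rw [if_pos a1, if_pos (by omega)]
      have : (Finset.univ.filter fun i => jj i = m + 1).card = 2 := by omega
      rw [this]
      norm_num
    · rw [if_neg a1]
      by_cases a2 : m < s
      · rw [if_pos a2]
        have : (Finset.univ.filter fun i => jj i = m + 1).card = 1 := by omega
        rw [this]
        norm_num
      · rw [if_neg a2]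
        have : (Finset.univ.filter fun i => jj i = m + 1).card = 0 := by omega
        rw [this]
        norm_num

/-- The series of `hcG ![2, s]`. -/
theorem hcG_coeff (s n k : ℕ) : hcG ![2, s] n k =
    PowerSeries.coeff k ((1 - PowerSeries.X ^ 2) * (1 - PowerSeries.X ^ s) * B n) := by
  have e : (1 - PowerSeries.X ^ 2) * (1 - PowerSeries.X ^ s) * B n =
      PowerSeries.X ^ 0 * B n - PowerSeries.X ^ 2 * B n - PowerSeries.X ^ s * B n +
        PowerSeries.X ^ (2 + s) * B n := by
    ring
  rw [e, map_add, map_sub, map_sub, coeff_XB, coeff_XB, coeff_XB, coeff_XB]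
  unfold hcG
  have hu : (Finset.univ : Finset (Finset (Fin 2))) = {∅, {0}, {1}, {0, 1}} := by decide
  rw [hu, Finset.sum_insert (by decide), Finset.sum_insert (by decide),
    Finset.sum_insert (by decide)]
  have c1 : ({0, 1} : Finset (Fin 2)).card = 2 := by decide
  have s1 : ∑ i ∈ ({0, 1} : Finset (Fin 2)), (![2, s] : Fin 2 → ℕ) i = 2 + s := by
    rw [Finset.sum_insert (by decide), Finset.sum_singleton]
    rfl
  simp only [Finset.sum_empty, Finset.card_empty, Finset.sum_singleton, Finset.card_singleton,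
    c1, s1, Matrix.cons_val_zero, Matrix.cons_val_one, Nat.zero_le, if_true]
  split_ifs <;> ring

end H2Aux

theorem tH2 : S_H2 := by
  intro n s jj hs h k
  rw [H2Aux.hcG_coeff]
  have e1 : ((∑ i, if jj i ≤ k then (n + (k - jj i)).choose n else 0 : ℕ) : ℤ) =
      PowerSeries.coeff k ((∑ i, (PowerSeries.X : PowerSeries ℤ) ^ (jj i)) * H2Aux.B n) := by
    rw [Finset.sum_mul, map_sum]
    push_cast
    refine Finset.sum_congr rfl fun i _ => ?_
    rw [H2Aux.coeff_XB]
  rw [e1]
  congr 1
  rw [H2Aux.count s jj hs h]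
  have hg : (∑ k ∈ Finset.range s, (PowerSeries.X : PowerSeries ℤ) ^ k) * (1 - PowerSeries.X) =
      1 - PowerSeries.X ^ s := by
    have := geom_sum_mul_neg (PowerSeries.X : PowerSeries ℤ) s
    exact this
  have b1 := H2Aux.B_mul n
  have b2 := H2Aux.B_mul (n + 2)
  have hne : ((1 : PowerSeries ℤ) - PowerSeries.X) ^ (n + 3) ≠ 0 := by
    intro h0
    have : n + 2 + 1 = n + 3 := rfl
    rw [this, h0, mul_zero] at b2
    exact zero_ne_one b2
  refine mul_right_cancel₀ hne ?_
  have b2' : H2Aux.B (n + 2) * (1 - PowerSeries.X) ^ (n + 3) = 1 := b2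
  calc (1 + PowerSeries.X) * (∑ k ∈ Finset.range s, (PowerSeries.X : PowerSeries ℤ) ^ k) * H2Aux.B n *
        (1 - PowerSeries.X) ^ (n + 3)
      = (1 + PowerSeries.X) * (1 - PowerSeries.X) *
        ((∑ k ∈ Finset.range s, (PowerSeries.X : PowerSeries ℤ) ^ k) * (1 - PowerSeries.X)) *
          (H2Aux.B n * (1 - PowerSeries.X) ^ (n + 1)) := by ring
    _ = (1 - PowerSeries.X ^ 2) * (1 - PowerSeries.X ^ s) *
          (H2Aux.B (n + 2) * (1 - PowerSeries.X) ^ (n + 3)) := by
        rw [hg, b1, b2']
        ring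
    _ = _ := by ring

end Pool.Agent.Lib.MP_776403_ag.SD.C2
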