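import Pool.Agent.Lib.MP_776403_ag.SD.C2.Spec

/-!
# MP_776403, codimension 2, module KJ: the Koszul relation over a subvariety
-/

set_option autoImplicit false

open MvPolynomial

noncomputable section

namespace Pool.Agent.Lib.MP_776403_ag.SD.C2

/-- a power series with finitely many coefficients is a polynomial -/
private theorem kj_poly (φ : PowerSeries ℤ) (m0 : ℕ)
    (h : ∀ m, m0 ≤ m → PowerSeries.coeff m φ = 0) : ∃ p : Polynomial ℤ, φ = (p : PowerSeries ℤ) := by
  refine ⟨PowerSeries.trunc m0 φ, ?_⟩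
  ext m
  rw [Polynomial.coeff_coe, PowerSeries.coeff_trunc]
  by_cases hm : m < m0
  · rw [if_pos hm]
  · rw [if_neg hm, h m (not_lt.1 hm)]

private theorem kj_sign (i : ℕ) (φ : PowerSeries ℤ) (m : ℕ) :
    PowerSeries.coeff m ((-1) ^ i * φ) = (-1) ^ i * PowerSeries.coeff m φ := by
  have h : ((-1 : PowerSeries ℤ) ^ i) = PowerSeries.C ((-1 : ℤ) ^ i) := by
    rw [map_pow, map_neg, map_one]
  rw [h, PowerSeries.coeff_C_mul]

private theorem kj_nat (c : ℕ) (φ : PowerSeries ℤ) (m : ℕ) :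
    PowerSeries.coeff m ((c : PowerSeries ℤ) * φ) = (c : ℤ) * PowerSeries.coeff m φ := by
  have h : (c : PowerSeries ℤ) = PowerSeries.C (c : ℤ) := by
    rw [map_natCast]
  rw [h, PowerSeries.coeff_C_mul]

private theorem kj_coeff_ps (h : ℕ → ℕ) (i m : ℕ) :
    PowerSeries.coeff m (PowerSeries.X ^ i * ps h) = if i ≤ m then (h (m - i) : ℤ) else 0 := by
  rw [PowerSeries.coeff_X_pow_mul']
  split_ifs
  · rw [ps, PowerSeries.coeff_mk]
  · rfl

/-- the coefficients of `(1 - X)^(N + 1) ps a` -/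
private theorem kj_binom (N : ℕ) (a : ℕ → ℕ) (m : ℕ) :
    PowerSeries.coeff m ((1 - PowerSeries.X) ^ (N + 1) * ps a) =
      ∑ i ∈ Finset.range (N + 2), (-1 : ℤ) ^ i * (Nat.choose (N + 1) i : ℤ) *
        (if i ≤ m then (a (m - i) : ℤ) else 0) := by
  have h : ((1 - PowerSeries.X : PowerSeries ℤ)) ^ (N + 1) =
      ∑ i ∈ Finset.range (N + 2), (-1) ^ i * ((Nat.choose (N + 1) i : PowerSeries ℤ) *
        PowerSeries.X ^ i) := by
    have h1 : (1 - PowerSeries.X : PowerSeries ℤ) = -PowerSeries.X + 1 := by ring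
    rw [h1, add_pow]
    refine Finset.sum_congr rfl fun i _ => ?_
    rw [neg_pow]
    ring
  rw [h, Finset.sum_mul, map_sum]
  refine Finset.sum_congr rfl fun i _ => ?_
  rw [mul_assoc, kj_sign, mul_assoc, kj_nat, kj_coeff_ps]
  ring

private theorem kj_LFr {N : ℕ} (I J : Ideal (Sx N)) : LFr I J (AF N) := by
  intro p _ _
  refine ⟨1, fun _ _ => 1, fun _ _ => 1, fun _ => 0, 1, 0, isHomogeneous_one _ _, ?_, ?_, ?_⟩
  · rw [map_one]
    exact one_ne_zero
  · intro l
    refine ⟨?_, le_rfl, ?_⟩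
    · intro a
      exact isHomogeneous_one _ _
    · intro a
      exact isHomogeneous_one _ _
  · intro m v _ a
    have h : (1 : Sx N) * v a - ∑ l : Fin 1, (∑ a' : Unit, (1 : Sx N) * v a') * 1 = 0 := by
      simp
    rw [h]
    exact Submodule.zero_mem _

theorem tKJ : S_KRI → S_KEul → S_KTP → S_KGF → S_KGV → S_KPV → S_KJ := by
  intro hRI hEul hTP hGF hGV hPV N c I J hI hh hs hJ hhJ hIJ
  have hAF : GV (AF N) := hGV.1 N
  have hVT : ∀ j, GV (VT I j) := fun j => (hGV.2.2.1 N I j).2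
  obtain ⟨g1, g2, -⟩ := hGF N Unit Unit I J (AF N) (AF N) hAF hAF
  have e1 : ∀ (K : Ideal (Sx N)) (k : ℕ), hV K (AF N) k = Module.finrank ℂ (gr K k) := fun K k =>
    (hPV.1 N Unit Unit K (AF N) (AF N) hAF k).2.2.2
  have e2 : ∀ j k, hV J (PV (PV (AF N) (AF N)) (VT I j)) k = hV J (VL I j) k := by
    intro j k
    rw [(hPV.1 N Unit (Finset (Fin (N + 1))) J (AF N) (VT I j) hAF k).1,
      (hPV.1 N (Finset (Fin (N + 1))) Unit J (VT I j) (AF N) (hVT j) k).2.1]
    exact (hPV.2 N Unit I J (AF N) j k).2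
  have e3 : ∀ m, Module.finrank ℂ (TPf I J (AF N) (AF N) m) =
      ∑ k ∈ Finset.range (m + 1), hV I (AF N) k * hV J (AF N) (m - k) :=
    hTP N Unit Unit I J hh hhJ (AF N) (AF N) hAF hAF
  have e4 : ps (fun k => Module.finrank ℂ (gr I k)) * ps (fun k => Module.finrank ℂ (gr J k)) =
      ps (fun m => Module.finrank ℂ (TPf I J (AF N) (AF N) m)) := by
    ext m
    rw [PowerSeries.coeff_mul, ps, ps, ps, PowerSeries.coeff_mk, e3,
      Finset.Nat.sum_antidiagonal_eq_sum_range_succ_mk]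
    push_cast
    refine Finset.sum_congr rfl fun k _ => ?_
    rw [PowerSeries.coeff_mk, PowerSeries.coeff_mk, e1, e1]
  have h1 := hRI N c Unit Unit I J hI hh hs hJ hhJ hIJ (AF N) (AF N) hAF hAF (kj_LFr I J)
  choose m0 hm0 using h1
  refine kj_poly _ ((N + 2) + ∑ i ∈ Finset.range (N + 2), m0 i) ?_
  intro m hm
  rw [map_sub, e4, kj_binom, map_sum, ← hEul N (Unit × Unit → CR I J)
    (TPf I J (AF N) (AF N)) g1 g2 m, sub_eq_zero]
  refine Finset.sum_congr rfl fun i hi => ?_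
  have hi' : i ≤ m := by
    have := Finset.mem_range.1 hi
    omega
  have hmi : m0 i ≤ m := by
    have := Finset.single_le_sum (f := m0) (fun j _ => Nat.zero_le _) hi
    omega
  rw [kj_sign, kj_coeff_ps, if_pos hi', hm0 i m hmi, e2]

end Pool.Agent.Lib.MP_776403_ag.SD.C2
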