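import Pool.Agent.Lib.MP_776403_ag.SD.C2.Spec
import Pool.Agent.Lib.MP_776403_ag.SD.FR.SpecM
import Pool.Agent.Lib.MP_776403_ag.SD.U.St
import Pool.Agent.Lib.MP_776403_ag.SD.U.Ch
import Pool.Agent.Lib.MP_776403_ag.SD.U.Up

/-!
# MP_776403, codimension 2: most special flag with exact dimension (helper1)

`tMX : FR.S_MSs → U.S_FB → S_MX`.
-/

set_option autoImplicit false

open MvPolynomial

noncomputable section

namespace Pool.Agent.Lib.MP_776403_ag.SD.C2

namespace MXAux

open U U.StAux

variable {N : ℕ} {I : Ideal (Sx N)} {x : Vx N} {c : ℕ}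

/-- The number of frame vectors. -/
def cd (d : Fin c → ℕ) (K : ℕ) : ℕ := ∑ j, min K (d j - 1)

theorem card_eq (d : Fin c → ℕ) (K : ℕ) : (FI d K).card = cd d K := ChAux.card_FI d K

/-- The loss of dimension. -/
def loss (b : ℕ) (d : Fin c → ℕ) (K : ℕ) : ℕ :=
  ∑ i, if d i ≤ K then b - c - cd d (d i - 1) else 0

/-- The flag at the beginning. -/
theorem flag_one (L : Loc I x c) (b : ℕ) {J : Ideal (Sx N)}
    (hq : ∀ z ∈ zer J, z ≠ 0 → ∀ ξ : Fin c → ℂ, ξ ≠ 0 → qv L ξ 0 z ≠ 0) :
    Flag L (fun _ => b + 2) J 1 (fun i => Pi.single i 1) := by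
  have hB : LinearIndependent ℂ (fun i => Pi.single i 1 : Fin c → Fin c → ℂ) := by
    have h := (Pi.basisFun ℂ (Fin c)).linearIndependent
    have e : (⇑(Pi.basisFun ℂ (Fin c)) : Fin c → Fin c → ℂ) = fun i => Pi.single i 1 := by
      funext i
      exact Pi.basisFun_apply ℂ (Fin c) i
    rwa [e] at h
  refine ⟨hB, ?_, fun z hz hz0 i hi => absurd hi (by show ¬ (b + 2 ≤ 1); omega)⟩
  intro z hz hz0
  have hkey : ∀ j ≤ 0, ∀ θ : Fin c → ℂ, qv L θ j z ∈ Fj L j z →
      θ ∈ Submodule.span ℂ ((fun i => Pi.single i 1 : Fin c → Fin c → ℂ) ''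
        {i | (fun _ : Fin c => b + 2) i ≤ j + 1}) := by
    intro j hj θ hθ
    have hj0 : j = 0 := by omega
    subst hj0
    have h1 : Fj L 0 z = ⊥ := by
      rw [eq_bot_iff]
      refine Submodule.span_le.2 ?_
      rintro w ⟨ξ, k, hk, _⟩
      exact absurd hk (Nat.not_lt_zero _)
    rw [h1, Submodule.mem_bot] at hθ
    by_cases h2 : θ = 0
    · rw [h2]
      exact Submodule.zero_mem _
    · exact absurd hθ (hq z hz hz0 θ h2)
  have hfr := frame_ind L (fun _ => b + 2) (fun i => Pi.single i 1) hB 0 z hkey 1 (le_refl _)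
  rw [Fintype.linearIndependent_iff]
  intro g hg p
  have h6 := hfr (fun p => if h : p ∈ FI (fun _ : Fin c => b + 2) 1 then g ⟨p, h⟩ else 0) (by
    rw [← Finset.sum_coe_sort, ← hg]
    exact Finset.sum_congr rfl fun p _ => by rw [dif_pos p.2]) p.1 p.2
  rw [dif_pos p.2] at h6
  exact h6

/-- One step of the loss. -/
theorem loss_step {b K : ℕ} (hKb : K ≤ b) {d d' : Fin c → ℕ}
    (hd : ∀ i, 2 ≤ d i ∧ (d i ≤ K ∨ d i = b + 2))
    (hlow : ∀ i, d i ≤ K → d' i = d i)
    (hup : ∀ i, d i = b + 2 → d' i = K + 1 ∨ d' i = b + 2) :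
    loss b d' (K + 1) = loss b d K +
      Nat.card {i : Fin c // d' i = K + 1} * (b - c - cd d K) := by
  classical
  have hmin : ∀ m ≤ K, cd d' m = cd d m := by
    intro m hm
    unfold cd
    refine Finset.sum_congr rfl fun j _ => ?_
    rcases (hd j).2 with h | h
    · rw [hlow j h]
    · rcases hup j h with h' | h' <;> omega
  have h1 : Nat.card {i : Fin c // d' i = K + 1} * (b - c - cd d K) =
      ∑ i : Fin c, if d' i = K + 1 then b - c - cd d K else 0 := by
    rw [Nat.card_eq_fintype_card, Fintype.card_subtype, ← Finset.sum_filter, Finset.sum_const,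
      smul_eq_mul]
  rw [h1]
  unfold loss
  rw [← Finset.sum_add_distrib]
  refine Finset.sum_congr rfl fun i _ => ?_
  rcases (hd i).2 with h | h
  · have h2 := hlow i h
    have h3 : cd d' (d i - 1) = cd d (d i - 1) := hmin _ (by omega)
    rw [h2, if_pos (by omega), if_pos h, if_neg (by omega), h3, add_zero]
  · rcases hup i h with h' | h'
    · have h3 : cd d' K = cd d K := hmin _ (le_refl _)
      rw [h', if_pos (le_refl _), if_neg (by omega), if_pos rfl, Nat.add_sub_cancel, h3, zero_add]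
    · rw [h', if_neg (by omega), if_neg (by omega), if_neg (by omega)]

/-- The loss at the end. -/
theorem loss_end {b : ℕ} {d : Fin c → ℕ} (h2 : ∀ i, 2 ≤ d i) (hb : ∀ i, d i ≤ b + 1)
    (hs : ∑ i, (d i - 1) = b - c) : loss b d (b + 1) = ∑ i, ∑ j, (d j - d i) := by
  unfold loss
  refine Finset.sum_congr rfl fun i _ => ?_
  rw [if_pos (hb i), ← hs]
  have h3 : ∑ j, (d j - d i) + cd d (d i - 1) = ∑ j, (d j - 1) := by
    unfold cd
    rw [← Finset.sum_add_distrib]
    refine Finset.sum_congr rfl fun j _ => ?_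
    have := h2 i
    have := h2 j
    omega
  omega

end MXAux

open U U.StAux MXAux in
/-- (MX) MOST SPECIAL FLAG, exact dimension. -/
theorem tMX : FR.S_MSs → U.S_FB → S_MX := by
  classical
  intro hMSs hFB N c b I J₀ x hc hp hh hs hF₀ hpt₀ L hq δ hδ
  have hflag := flag_one L b hq
  -- `2 c ≤ b`
  have hcb : 2 * c ≤ b := by
    obtain ⟨z, hz, hz0⟩ := hpt₀
    have h1 := hFB N c b I J₀ x hc hp hh hs hF₀ L z hz hz0
    have h2 := h1.2.1 1
    have h3 := (h1.2.2.2 (fun _ => b + 2) 1 _ (fun i => by show 1 ≤ b + 2; omega) hflag).2.1 1 (le_refl _)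
    rw [h3, card_eq] at h2
    have h4 : cd (fun _ : Fin c => b + 2) 1 = c := by
      unfold cd
      have h5 : ∀ j : Fin c, min 1 ((fun _ : Fin c => b + 2) j - 1) = 1 := fun j => by
        show min 1 (b + 2 - 1) = 1
        omega
      rw [Finset.sum_congr rfl fun j _ => h5 j]
      simp
    omega
  -- the induction
  have key : ∀ K, 1 ≤ K → K ≤ b + 1 → ∃ (d : Fin c → ℕ) (J : Ideal (Sx N))
      (B : Fin c → Fin c → ℂ), J₀ ≤ J ∧ Fml I J c b x ∧ (∃ z ∈ zer J, z ≠ 0) ∧
      (∀ i, 2 ≤ d i ∧ (d i ≤ K ∨ d i = b + 2)) ∧ Flag L d J K B ∧ DimGe J (δ - loss b d K) ∧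
      ((∀ i, d i ≤ K) → cd d K = b - c) := by
    intro K hK
    induction K, hK using Nat.le_induction with
    | base =>
      intro _
      refine ⟨fun _ => b + 2, J₀, fun i => Pi.single i 1, le_refl _, hF₀, hpt₀,
        fun i => ⟨by show 2 ≤ b + 2; omega, Or.inr rfl⟩, hflag, ?_, fun h => ?_⟩
      · have h1 : loss b (fun _ : Fin c => b + 2) 1 = 0 := by
          unfold loss
          refine Finset.sum_eq_zero fun i _ => ?_
          rw [if_neg (show ¬ (b + 2 ≤ 1) by omega)]
        rw [h1, Nat.sub_zero]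
        exact hδ
      · have h0 : b + 2 ≤ 1 := h ⟨0, by omega⟩
        omega
    | succ K hK ih =>
      intro hKb
      obtain ⟨d, J, B, hJ, hF, hpt, hd, hfl, hD, hall⟩ := ih (by omega)
      obtain ⟨d', J', B', hJ', hF', hpt', hd', hlow, hup, hfl', hD', hlast⟩ :=
        hMSs N c b I J x hc hp hh hs hF hpt L d K B hK (by omega) hd hfl _ hD
      refine ⟨d', J', B', hJ.trans hJ', hF', hpt', hd', hfl', ?_, fun hle => ?_⟩
      · rw [loss_step (by omega) hd hlow hup, ← Nat.sub_sub, ← card_eq]
        exact hD'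
      · by_cases hex : ∃ i, d i = b + 2
        · have h1 := hlast hle hex
          rw [card_eq] at h1
          rw [← h1]
          unfold cd
          refine Finset.sum_congr rfl fun j _ => ?_
          have h2 := hle j
          rcases (hd j).2 with h | h
          · rw [hlow j h]
            omega
          · have := hup j h
            omega
        · have h1 : ∀ i, d i ≤ K := by
            intro i
            rcases (hd i).2 with h | h
            · exact h
            · exact absurd ⟨i, h⟩ hex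
          rw [← hall h1]
          unfold cd
          refine Finset.sum_congr rfl fun j _ => ?_
          have h2 := h1 j
          rw [hlow j h2]
          omega
  obtain ⟨d, J, B, hJ, hF, hpt, hd, hfl, hD, hall⟩ := key (b + 1) (by omega) (le_refl _)
  have hle : ∀ i, d i ≤ b + 1 := by
    intro i
    by_contra hi
    obtain ⟨z, hz, hz0⟩ := hpt
    have h1 := hFB N c b I J x hc hp hh hs hF L z hz hz0
    have h2 := h1.2.1 (b + 1)
    have h3 := (h1.2.2.2 d (b + 1) B (fun i => le_trans (by omega) (hd i).1) hfl).2.1 (b + 1)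
      (le_refl _)
    rw [h3, card_eq] at h2
    have h4 : min (b + 1) (d i - 1) ≤ cd d (b + 1) := by
      unfold cd
      exact Finset.single_le_sum (f := fun j => min (b + 1) (d j - 1))
        (fun j _ => Nat.zero_le _) (Finset.mem_univ i)
    omega
  have hsum : ∑ i, (d i - 1) = b - c := by
    rw [← hall hle]
    unfold cd
    refine Finset.sum_congr rfl fun j _ => ?_
    have := hle j
    omega
  have hsumb : ∑ i, d i = b := by
    have h1 : ∑ i, d i = ∑ i, (d i - 1) + c := by
      have h2 : ∑ i : Fin c, d i = ∑ i : Fin c, ((d i - 1) + 1) := by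
        refine Finset.sum_congr rfl fun i _ => ?_
        have := (hd i).1
        omega
      rw [h2, Finset.sum_add_distrib]
      simp
    omega
  refine ⟨d, J, B, fun i => (hd i).1, hsumb, hJ, hF, hpt, UpAux.flag_mono L (by omega) hfl, ?_⟩
  rw [← loss_end (fun i => (hd i).1) hle hsum]
  exact hD

end Pool.Agent.Lib.MP_776403_ag.SD.C2
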