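import Pool.Agent.Lib.MP_776403_ag.SD.C2.Spec
import Pool.Agent.Lib.MP_776403_ag.SD.M.Br
import Pool.Agent.Lib.MP_776403_ag.SD.Null

/-!
# MP_776403, codimension 2, module NS: numerical splitting
-/

set_option autoImplicit false

open MvPolynomial

noncomputable section

namespace Pool.Agent.Lib.MP_776403_ag.SD.C2

namespace NSAux

variable {N : ℕ}

/-- `∏ (1 - T^(d i))` is the alternating sum of the `esd`. -/
theorem prod_eq {c : ℕ} (d : Fin c → ℕ) (M : ℕ) (hM : c < M) :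
    ∏ i, (1 - Polynomial.X ^ (d i) : Polynomial ℤ) =
      ∑ j ∈ Finset.range M, (-1) ^ j * SDV.esd d j := by
  have h1 : ∀ j : Fin c, (1 - Polynomial.X ^ (d j) : Polynomial ℤ) =
      1 + (-Polynomial.X ^ (d j)) := fun j => by ring
  simp only [h1]
  rw [Finset.prod_one_add, Finset.sum_powerset, Finset.card_univ, Fintype.card_fin]
  have h2 : ∑ j ∈ Finset.range M, (-1) ^ j * SDV.esd d j =
      ∑ j ∈ Finset.range (c + 1), (-1) ^ j * SDV.esd d j := by
    symm
    refine Finset.sum_subset (Finset.range_subset_range.2 (by omega)) fun j _ hj => ?_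
    unfold SDV.esd
    rw [Finset.powersetCard_eq_empty.2, Finset.sum_empty, mul_zero]
    rw [Finset.card_univ, Fintype.card_fin]
    rw [Finset.mem_range] at hj
    omega
  rw [h2]
  refine Finset.sum_congr rfl fun j _ => ?_
  unfold SDV.esd
  rw [Finset.mul_sum]
  refine Finset.sum_congr rfl fun A hA => ?_
  rw [Finset.prod_neg, (Finset.mem_powersetCard.1 hA).2, Finset.prod_pow_eq_pow_sum]

/-- A power series which is eventually zero is a polynomial. -/
theorem poly (φ : PowerSeries ℤ) (h : ∀ᶠ m : ℕ in Filter.atTop, PowerSeries.coeff m φ = 0) :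
    ∃ p : Polynomial ℤ, φ = (p : PowerSeries ℤ) := by
  obtain ⟨m0, hm0⟩ := Filter.eventually_atTop.1 h
  refine ⟨PowerSeries.trunc m0 φ, ?_⟩
  ext m
  rw [Polynomial.coeff_coe, PowerSeries.coeff_trunc]
  by_cases hm : m < m0
  · rw [if_pos hm]
  · rw [if_neg hm, hm0 m (not_lt.1 hm)]

theorem sign (i : ℕ) (φ : PowerSeries ℤ) (m : ℕ) :
    PowerSeries.coeff m ((-1) ^ i * φ) = (-1) ^ i * PowerSeries.coeff m φ := by
  have h : ((-1 : PowerSeries ℤ) ^ i) = PowerSeries.C ((-1 : ℤ) ^ i) := by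
    rw [map_pow, map_neg, map_one]
  rw [h, PowerSeries.coeff_C_mul]

theorem coe_sum (M : ℕ) (f : ℕ → Polynomial ℤ) :
    ((∑ j ∈ Finset.range M, (-1) ^ j * f j : Polynomial ℤ) : PowerSeries ℤ) =
      ∑ j ∈ Finset.range M, (-1) ^ j * (f j : PowerSeries ℤ) := by
  induction M with
  | zero => simp
  | succ M ih =>
    rw [Finset.sum_range_succ, Finset.sum_range_succ, Polynomial.coe_add, ih, Polynomial.coe_mul,
      Polynomial.coe_pow, Polynomial.coe_neg, Polynomial.coe_one]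

/-- A point on `J`. -/
theorem pt {J : Ideal (Sx N)} (hJ : J.IsPrime) (hJh : IsHom J) {D : ℕ} (hD : 1 ≤ D)
    (h : DimGe J D) : ∃ z ∈ zer J, z ≠ 0 := by
  by_contra hcon
  push Not at hcon
  obtain ⟨i, hi⟩ := h
  have hX : (X (i ⟨0, hD⟩) : Sx N) ∈ J := by
    refine (tNull N J hJ hJh).1 _ (fun z hz => ?_)
    rw [hcon z hz]
    simp
  exact hi.ne_zero ⟨0, hD⟩ (Ideal.Quotient.eq_zero_iff_mem.2 hX)

end NSAux

open NSAux BrAux

theorem tNS : S_KVL → S_KJ → S_WQP → S_NS := by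
  intro hKVL hKJ hWQP N c δ I J d q0 hI hIh hS hJ hJh hle hdim hδ hq0 hlam
  obtain ⟨D, rfl⟩ : ∃ D, δ = D + 1 := ⟨δ - 1, by omega⟩
  -- `c ≤ N + 1`
  have hcN : c ≤ N + 1 := by
    obtain ⟨z, hz, hz0⟩ := pt hJ hJh hδ hdim
    obtain ⟨F, f, h, e, -, -, -, hli, -⟩ := hS z (fun G hG => hz G (hle hG)) hz0
    have h1 := hli.fintype_card_le_finrank
    rw [Fintype.card_fin] at h1
    refine h1.trans (le_of_eq ?_)
    simp [Vx]
  obtain ⟨c', h, hc', hQ, hpos⟩ := hWQP N D J hJ hJh hdim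
  obtain ⟨p, hp⟩ := hKJ N c I J hI hIh hS hJ hJh hle
  set gI : ℕ → ℕ := fun k => Module.finrank ℂ (gr I k) with hgI
  set gJ : ℕ → ℕ := fun k => Module.finrank ℂ (gr J k) with hgJ
  set Pi : Polynomial ℤ := ∏ i, (1 - Polynomial.X ^ (d i)) with hPi
  -- (1)
  obtain ⟨e, he⟩ : ∃ e : Polynomial ℤ,
      ∑ i ∈ Finset.range (N + 2), (-1) ^ i * (PowerSeries.X ^ i * ps (hV J (VL I i))) -
        (Pi : PowerSeries ℤ) * ps gJ = (e : PowerSeries ℤ) := by
    refine poly _ ?_
    have h1 : (Pi : PowerSeries ℤ) * ps gJ =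
        ∑ i ∈ Finset.range (N + 2), (-1) ^ i * ((SDV.esd d i : PowerSeries ℤ) * ps gJ) := by
      rw [hPi, prod_eq d (N + 2) (by omega), coe_sum, Finset.sum_mul]
      exact Finset.sum_congr rfl fun i _ => mul_assoc _ _ _
    rw [h1, ← Finset.sum_sub_distrib]
    have h2 : ∀ i ∈ Finset.range (N + 2), ∀ᶠ m : ℕ in Filter.atTop,
        PowerSeries.coeff m ((-1) ^ i * (PowerSeries.X ^ i * ps (hV J (VL I i))) -
          (-1) ^ i * ((SDV.esd d i : PowerSeries ℤ) * ps gJ)) = 0 := by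
      intro i _
      filter_upwards [esd_coeff d i gJ, Filter.eventually_ge_atTop i, hlam i] with m hm hm2 hm3
      rw [map_sub, sign, sign, hm, coeff_pow_mul _ _ _ hm2]
      have h6 : PowerSeries.coeff (m - i) (ps (hV J (VL I i))) =
          (Module.finrank ℂ (Lam I J i m) : ℤ) := by
        unfold ps
        rw [PowerSeries.coeff_mk]
        have h7 := (hKVL N I J i).1 (m - i)
        rw [Nat.sub_add_cancel hm2] at h7
        rw [h7]
        rfl
      rw [h6, hm3]
      push_cast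
      ring
    filter_upwards [(Filter.eventually_all_finset _).2 h2] with m hm
    rw [map_sum]
    exact Finset.sum_eq_zero hm
  -- (2)
  have h2 : (1 - PowerSeries.X) ^ (N + 1) * (ps gI * ps gJ) - (Pi : PowerSeries ℤ) * ps gJ =
      ((p + e : Polynomial ℤ) : PowerSeries ℤ) := by
    rw [Polynomial.coe_add, ← hp, ← he]
    ring
  have h3 : (1 - Polynomial.X : Polynomial ℤ) ^ c' * (h * ((1 - Polynomial.X) ^ c * q0 - Pi)) =
      (1 - Polynomial.X) ^ c' * ((1 - Polynomial.X) ^ (N + 1 - c') * (p + e)) := by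
    apply Polynomial.coe_injective ℤ
    have e1 : (1 - PowerSeries.X) ^ (N + 1) * ps gI =
        (((1 - Polynomial.X) ^ c * q0 : Polynomial ℤ) : PowerSeries ℤ) := hq0
    have e2 : (1 - PowerSeries.X) ^ (N + 1) * ps gJ =
        (((1 - Polynomial.X) ^ c' * h : Polynomial ℤ) : PowerSeries ℤ) := hQ
    have e3 : (1 - Polynomial.X : Polynomial ℤ) ^ c' * (h * ((1 - Polynomial.X) ^ c * q0 - Pi)) =
        ((1 - Polynomial.X) ^ c * q0) * ((1 - Polynomial.X) ^ c' * h) -
          Pi * ((1 - Polynomial.X) ^ c' * h) := by ring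
    have e4 : (1 - Polynomial.X : Polynomial ℤ) ^ c' *
        ((1 - Polynomial.X) ^ (N + 1 - c') * (p + e)) = (1 - Polynomial.X) ^ (N + 1) * (p + e) := by
      rw [← mul_assoc, ← pow_add]
      congr 2
      omega
    rw [e3, e4, Polynomial.coe_sub, Polynomial.coe_mul, Polynomial.coe_mul _ ((1 - Polynomial.X) ^ c' * h),
      Polynomial.coe_mul _ (p + e), ← e1, ← e2, coe_ou, ← h2]
    ring
  have h4 := mul_left_cancel₀ (pow_ne_zero c' ou_ne') h3
  have h5 := dvd_of_unit (N + 1 - c') h _ (ne_of_gt hpos) ⟨_, h4⟩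
  exact (pow_dvd_pow _ (by omega)).trans h5

theorem tND : S_ND := by
  intro c d q0 h
  have h1 : ∀ i, (1 - Polynomial.X ^ (d i) : Polynomial ℤ) =
      (1 - Polynomial.X) * ∑ k ∈ Finset.range (d i), Polynomial.X ^ k := by
    intro i
    rw [mul_comm]
    exact (geom_sum_mul_neg _ _).symm
  have h2 : ∏ i, (1 - Polynomial.X ^ (d i) : Polynomial ℤ) =
      (1 - Polynomial.X) ^ c * ∏ i, ∑ k ∈ Finset.range (d i), Polynomial.X ^ k := by
    rw [Finset.prod_congr rfl fun i _ => h1 i, Finset.prod_mul_distrib, Finset.prod_const,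
      Finset.card_univ, Fintype.card_fin]
  rw [h2, ← mul_sub, pow_succ] at h
  have h3 := (mul_dvd_mul_iff_left (pow_ne_zero c ou_ne')).1 h
  obtain ⟨r, hr⟩ := h3
  have h4 := congrArg (Polynomial.eval 1) hr
  rw [Polynomial.eval_mul, Polynomial.eval_sub, Polynomial.eval_sub, Polynomial.eval_one,
    Polynomial.eval_X, sub_self, zero_mul, Polynomial.eval_prod, sub_eq_zero] at h4
  rw [h4]
  push_cast
  refine Finset.prod_congr rfl fun i _ => ?_
  simp [Polynomial.eval_finsetSum]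

end Pool.Agent.Lib.MP_776403_ag.SD.C2
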