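import Pool.Agent.Lib.MP_776403_ag.SD.C2.Spec

set_option autoImplicit false

open MvPolynomial

noncomputable section

namespace Pool.Agent.Lib.MP_776403_ag.SD.C2

theorem tPr : S_Pr := by
  intro N I hI hH hlin F hF hF2 hF0
  obtain ⟨s, hs, hass⟩ := UniqueFactorizationMonoid.exists_prime_factors F hF0
  have hmem : s.prod ∈ I := by
    obtain ⟨u, hu⟩ := hass.symm
    rw [← hu]
    exact I.mul_mem_right _ hF
  obtain ⟨p, hp, hpI⟩ := (hI.multiset_prod_mem_iff_exists_mem s).1 hmem
  obtain ⟨q, hq⟩ : p ∣ F := (Multiset.dvd_prod hp).trans hass.dvd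
  have hp0 : p ≠ 0 := (hs p hp).ne_zero
  have hq0 : q ≠ 0 := by
    rintro rfl
    exact hF0 (by simpa using hq)
  have hdeg : p.totalDegree + q.totalDegree = 2 := by
    rw [← totalDegree_mul_of_isDomain hp0 hq0, ← hq]
    exact hF2.totalDegree hF0
  have hcst : ∀ a : ℂ, (C a : Sx N) ∈ I → a = 0 := by
    intro a ha
    by_contra hne
    exact hI.ne_top (Ideal.eq_top_of_isUnit_mem I ha ((isUnit_iff_ne_zero.2 hne).map C))
  rcases Nat.eq_zero_or_pos q.totalDegree with h0 | h1
  · have hqC : q = C (coeff 0 q) := totalDegree_eq_zero_iff_eq_C.1 h0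
    have hc : coeff 0 q ≠ 0 := by
      intro h
      rw [h, C_0] at hqC
      exact hq0 hqC
    have hu : IsUnit q := by
      rw [hqC]
      exact (isUnit_iff_ne_zero.2 hc).map C
    have hsp : Ideal.span {F} = Ideal.span {p} := by
      rw [hq]
      exact Ideal.span_singleton_mul_right_unit hu p
    rw [hsp]
    exact (Ideal.span_singleton_prime hp0).2 (hs p hp)
  · exfalso
    have hp1 : p.totalDegree ≤ 1 := by omega
    have hsum := sum_homogeneousComponent p
    have hz1 : homogeneousComponent 1 p = 0 :=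
      hlin _ (hH p hpI 1) (homogeneousComponent_isHomogeneous 1 p)
    have hz0 : homogeneousComponent 0 p = 0 := by
      have h := hH p hpI 0
      rw [homogeneousComponent_zero] at h ⊢
      rw [hcst _ h, C_0]
    apply hp0
    rw [← hsum]
    refine Finset.sum_eq_zero fun i hi => ?_
    have hi' : i < p.totalDegree + 1 := Finset.mem_range.1 hi
    have : i = 0 ∨ i = 1 := by omega
    rcases this with rfl | rfl
    · exact hz0
    · exact hz1

end Pool.Agent.Lib.MP_776403_ag.SD.C2
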