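import Pool.Agent.Lib.MP_776403_ag.SD.C2.Spec
import Pool.Agent.Lib.MP_776403_ag.SD.U.Up

/-!
# MP_776403, codimension 2: independent sections of a constant flag
-/

set_option autoImplicit false

open MvPolynomial

noncomputable section

namespace Pool.Agent.Lib.MP_776403_ag.SD.C2

open U U.UpAux in
/-- The sections of a flag. -/
theorem tSI : U.S_Lf → U.S_Psi → U.S_FB → S_SI := by
  intro hLf hPsi hFB N c a I J x hc hI hIh hS hFm L d B hd2 hsum hFl
  have hd1 : ∀ i, 1 ≤ d i := fun i => by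
    have := hd2 i
    omega
  have hda : ∀ i, d i ≤ a := fun i => by
    rw [← hsum]
    exact Finset.single_le_sum (f := d) (fun _ _ => Nat.zero_le _) (Finset.mem_univ i)
  have hsec : ∀ i, ∃ sig : Vx N → Vx N, IsSect I J (d i) sig ∧
      ∀ z ∈ zer J, z ≠ 0 → Pt L (B i) (d i) z (sig z) := by
    intro i
    have h2 := hd2 i
    have ha := hda i
    obtain ⟨sig, hs1, hs2⟩ := hLf N c a I J x hc hI hIh hS hFm L d (d i - 1) B hd1 (by omega)
      (flag_mono L (by omega) hFl) (B i) (fun z hz hz0 => hFl.mem z hz hz0 i ha)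
    rw [show d i - 1 + 1 = d i by omega] at hs1
    refine ⟨sig, hs1, fun z hz hz0 => ?_⟩
    obtain ⟨cf, hc1, hc2⟩ := hs2 z hz hz0
    exact pt_of L (B i) (d i) h2 z (sig z) cf hc1 hc2
  choose sig hsig1 hsig2 using hsec
  refine ⟨sig, hsig1, fun z hz hz0 => ?_⟩
  refine indep L (d := d) (B := B) (K := a) z ?_ ?_ B d (fun t => ⟨hd2 t, ?_⟩) hFl.bas
    (fun i _ => ⟨i, rfl, rfl⟩) _ (fun t => hsig2 t z hz hz0)
  · exact ((hFB N c a I J x hc hI hIh hS hFm L z hz hz0).2.2.2 d a B hd1 hFl).2.2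
  · intro f w j hw hy hl
    exact (hPsi N c a I J x hc hI hIh hS hFm L z hz hz0 f w j hw hy).2 hl
  · have := hda t
    omega

end Pool.Agent.Lib.MP_776403_ag.SD.C2
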