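import Pool.Agent.Lib.MP_776403_ag.SD.C2.Spec
import Pool.Agent.Lib.MP_776403_ag.SD.NAsm

/-!
# `S_SJ`: the Hilbert functions of the exterior powers of a split conormal bundle
-/

set_option autoImplicit false

open MvPolynomial

noncomputable section

namespace Pool.Agent.Lib.MP_776403_ag.SD.C2

namespace SJAux

/-- Sums over the subsets of `insert x s`. -/
theorem sum_ins {ι : Type} [DecidableEq ι] {s : Finset ι} {x : ι} (hx : x ∉ s) (j : ℕ)
    (g : Finset ι → ℕ) :
    ∑ A ∈ Finset.powersetCard (j + 1) (insert x s), g A =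
      ∑ A ∈ Finset.powersetCard (j + 1) s, g A + ∑ A ∈ Finset.powersetCard j s, g (insert x A) := by
  rw [Finset.powersetCard_succ_insert hx, Finset.sum_union, Finset.sum_image]
  · intro A hA B hB hAB
    have h1 : x ∉ A := fun h => hx ((Finset.mem_powersetCard.1 hA).1 h)
    have h2 : x ∉ B := fun h => hx ((Finset.mem_powersetCard.1 hB).1 h)
    rw [← Finset.erase_insert h1, ← Finset.erase_insert h2]
    exact congrArg (fun C => C.erase x) hAB
  · rw [Finset.disjoint_left]
    intro A hA hB
    obtain ⟨B, _, rfl⟩ := Finset.mem_image.1 hB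
    exact hx ((Finset.mem_powersetCard.1 hA).1 (Finset.mem_insert_self x B))

/-- `Lam I J 0 m` is `gr J m`. -/
theorem lam_zero {N : ℕ} (I J : Ideal (Sx N)) (m : ℕ) :
    Module.finrank ℂ (Lam I J 0 m) = Module.finrank ℂ (gr J m) := by
  obtain ⟨φ, hφ⟩ : ∃ φ : (Sx N ⧸ J) →ₗ[ℂ] ((Fin 0 → Fin (N + 1)) → Sx N ⧸ J),
      ∀ x, φ x = fun _ => x := ⟨LinearMap.pi fun _ => LinearMap.id, fun x => rfl⟩
  have hinj : Function.Injective φ := by
    intro x y hxy
    rw [hφ, hφ] at hxy
    exact congrFun hxy (fun i => i.elim0)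
  have h1 : Lam I J 0 m = (gr J m).map φ := by
    apply le_antisymm
    · refine Submodule.span_le.2 ?_
      rintro z ⟨a, e, F, f, ha, _, hs, rfl⟩
      rw [Fin.sum_univ_zero, add_zero] at hs
      subst hs
      refine ⟨Ideal.Quotient.mk J a, ⟨a, ha, rfl⟩, ?_⟩
      rw [hφ]
      funext α
      rw [Matrix.det_isEmpty, mul_one]
    · rintro z ⟨y, ⟨a, ha, rfl⟩, rfl⟩
      refine Submodule.subset_span ⟨a, m, fun i => i.elim0, fun i => i.elim0, ha,
        fun i => i.elim0, by simp, ?_⟩
      rw [hφ]
      funext α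
      rw [Matrix.det_isEmpty, mul_one]
      rfl
  rw [h1]
  exact (Submodule.equivMapOfInjective φ hinj (gr J m)).finrank_eq.symm

end SJAux

open NAsmAux SJAux

theorem tSJ : S_NCnv → S_NRec → S_NRel → S_SJ := by
  intro hCnv hRec hRel N c I J d sig hIp hIh hIs hJp hJh hle hz hd hsig hind j
  have := hJp
  obtain ⟨σ, δ, hδ, D⟩ := hCnv N c (FractionRing (Sx N ⧸ J)) I J (piK J) hIp hIh
    hIs hJp hJh hle (piK_ker J hJp) hz c sig d hsig hd hind
  obtain ⟨hA, hB, hC⟩ := hRec N c c (FractionRing (Sx N ⧸ J)) I J (piK J) σ δ D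
  have h00 : ∀ i ≤ c, ∀ m, Module.finrank ℂ (Li I (piK J) σ i 0 m) = Module.finrank ℂ (gr J m) := by
    intro i
    induction i with
    | zero =>
      intro _ m
      rw [Li_zero, hRel N _ I J (piK J) (piK_ker J hJp) 0 m, lam_zero]
    | succ i ih =>
      intro hi m
      rw [← hB i (by omega) m]
      exact ih (by omega) m
  have key : ∀ k ≤ c, ∀ j : ℕ, ∀ᶠ m : ℕ in Filter.atTop,
      Module.finrank ℂ (Li I (piK J) σ (c - k) j m) =
        ∑ A ∈ Finset.powersetCard j (Finset.univ.filter fun l : Fin c => c - k ≤ (l : ℕ)),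
          Module.finrank ℂ (gr J (m - ∑ i ∈ A, d i)) := by
    intro k
    induction k with
    | zero =>
      intro _ j
      refine Filter.Eventually.of_forall fun m => ?_
      have h1 : (Finset.univ.filter fun l : Fin c => c - 0 ≤ (l : ℕ)) = ∅ := by
        refine Finset.filter_eq_empty_iff.2 fun l _ => ?_
        have := l.isLt
        omega
      rw [h1]
      rcases j with _ | j
      · rw [Nat.sub_zero, h00 c le_rfl m, Finset.powersetCard_zero, Finset.sum_singleton,
          Finset.sum_empty, Nat.sub_zero]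
      · rw [Nat.sub_zero, hC (j + 1) (by omega) m,
          Finset.powersetCard_eq_empty.2 (by rw [Finset.card_empty]; omega), Finset.sum_empty]
    | succ k ih =>
      intro hk j
      have ih' := ih (by omega)
      rcases j with _ | j
      · refine Filter.Eventually.of_forall fun m => ?_
        rw [h00 (c - (k + 1)) (by omega) m, Finset.powersetCard_zero, Finset.sum_singleton,
          Finset.sum_empty, Nat.sub_zero]
      · obtain ⟨i, hi⟩ : ∃ i, i = c - (k + 1) := ⟨_, rfl⟩
        have hic : i < c := by omega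
        have hi1 : c - k = i + 1 := by omega
        rw [← hi]
        rw [hi1] at ih'
        have hset : (Finset.univ.filter fun l : Fin c => i ≤ (l : ℕ)) =
            insert (⟨i, hic⟩ : Fin c) (Finset.univ.filter fun l : Fin c => i + 1 ≤ (l : ℕ)) := by
          ext l
          simp only [Finset.mem_filter, Finset.mem_univ, true_and, Finset.mem_insert, Fin.ext_iff]
          omega
        have hnot : (⟨i, hic⟩ : Fin c) ∉ Finset.univ.filter fun l : Fin c => i + 1 ≤ (l : ℕ) := by
          simp
        have hdi : δ i = d ⟨i, hic⟩ := hδ ⟨i, hic⟩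
        have e1 := ih' (j + 1)
        have e2 := ih' j
        have e3 := hA i hic j
        obtain ⟨m1, hm1⟩ := Filter.eventually_atTop.1 e1
        obtain ⟨m2, hm2⟩ := Filter.eventually_atTop.1 e2
        obtain ⟨m3, hm3⟩ := Filter.eventually_atTop.1 e3
        refine Filter.eventually_atTop.2 ⟨m1 + m2 + m3 + δ i, fun m hm => ?_⟩
        obtain ⟨m', rfl⟩ : ∃ m', m = m' + δ i := ⟨m - δ i, by omega⟩
        rw [hm3 m' (by omega), hm1 (m' + δ i) (by omega), hm2 m' (by omega), hset,
          sum_ins hnot]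
        congr 1
        refine Finset.sum_congr rfl fun A hA' => ?_
        have hiA : (⟨i, hic⟩ : Fin c) ∉ A := fun h => hnot ((Finset.mem_powersetCard.1 hA').1 h)
        have e4 : m' + δ i - ∑ l ∈ insert (⟨i, hic⟩ : Fin c) A, d l = m' - ∑ l ∈ A, d l := by
          rw [Finset.sum_insert hiA, ← hdi]
          omega
        rw [e4]
  have h := key c le_rfl j
  refine h.mono fun m hm => ?_
  rw [Nat.sub_self, Li_zero, hRel N _ I J (piK J) (piK_ker J hJp) j m] at hm
  rw [hm]
  have : (Finset.univ.filter fun l : Fin c => 0 ≤ (l : ℕ)) = Finset.univ := by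
    simp
  rw [this]

end Pool.Agent.Lib.MP_776403_ag.SD.C2
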