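import Pool.Agent.Lib.MP_776403_ag.SD.FR.Main
import Pool.Agent.Lib.MP_776403_ag.SD.FR.Ca
import Pool.Agent.Lib.MP_776403_ag.SD.CE.CEc
import Pool.Agent.Lib.MP_776403_ag.SD.C2.A1
import Pool.Agent.Lib.MP_776403_ag.SD.C2.As
import Pool.Agent.Lib.MP_776403_ag.SD.C2.C2
import Pool.Agent.Lib.MP_776403_ag.SD.C2.E1
import Pool.Agent.Lib.MP_776403_ag.SD.C2.H2
import Pool.Agent.Lib.MP_776403_ag.SD.C2.KJ
import Pool.Agent.Lib.MP_776403_ag.SD.C2.MX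
import Pool.Agent.Lib.MP_776403_ag.SD.C2.NS
import Pool.Agent.Lib.MP_776403_ag.SD.C2.Pr
import Pool.Agent.Lib.MP_776403_ag.SD.C2.SI
import Pool.Agent.Lib.MP_776403_ag.SD.C2.SJ
import Pool.Agent.Lib.MP_776403_ag.SD.M.NN

/-!
# Codimension 2: closed forms
-/

set_option autoImplicit false

open MvPolynomial

noncomputable section

namespace Pool.Agent.Lib.MP_776403_ag.SD.C2

theorem cMX : S_MX := tMX FR.cMSs U.tFB

theorem cSI : S_SI := tSI U.uLf U.uPsi U.tFB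

theorem cSJ : S_SJ :=
  tSJ (nCnv tNull (nRk mPerp (nSpc tNull)) (nSpc tNull))
    (nRec (nKerA nNoe (nSat (nIrr tD6p)) nLfg nFun nCon) (nKerB (nSat (nIrr tD6p)) nLfg nCrm)
      nLi0 nDep nLfg) (nRel nDet)

theorem cKJ : S_KJ := tKJ zKRI zKEul tKTP zKGF tKGV zKPV

theorem cNS : S_NS := tNS tKVL cKJ zWQP

theorem cAs : S_As :=
  tAs cMX cSI cSJ cNS tND FR.cB2 FR.tFE FR.cR7 UN.cU5 UN.cU6w U.uVT

/-- THEOREM C2. -/
theorem cC2 : S_C2 :=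
  tC2 FR.cW1 (FR.tW1q FR.cW1r) (FR.tCa (FR.tW1q FR.cW1r) UK.uCasC) FR.cMT UK.uNs CE.ceC tH2
    (tE1 tPr UN.tFHc) cAs tA1

end Pool.Agent.Lib.MP_776403_ag.SD.C2
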