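import Pool.Agent.Lib.MP_776403_ag.SD.FR.SpecZ
import Pool.Agent.Lib.MP_776403_ag.SD.CE.Spec

/-!
# MP_776403, codimension 2 (helper5): `n ≥ deg X + 1` implies complete intersection

* flags with the exact dimension `δ - ∑_i ∑_j (d j - d i)` (any codimension),
* NUMERICAL SPLITTING without THEOREM W: `deg X = ∏ d i` for the type `d` of a most special line,
* `c = 2`, `D = 2 (b - 2)`: equality in Castelnuovo's bound, `I = (F, G)` by the Hilbert function.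

Statements with complete proofs in the docstrings.  `S_Xyz` is proved in `SD/C2/Xyz.lean` (theorem
`SD.C2.tXyz`), other statements of the Spec files are taken as hypotheses (closed old theorems may be used).
-/

set_option autoImplicit false

open MvPolynomial

noncomputable section

namespace Pool.Agent.Lib.MP_776403_ag.SD.C2

variable {N : ℕ}

/-! ## 1. Flags -/

/-- (MX) MOST SPECIAL FLAG, exact dimension.

PROOF.  As `FR.S_MS` (`FR/SpecM.lean`), with a better count.  `2 c ≤ b` as there; `K = 1`: `d i = b + 2`, `B` the standard basis.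
Induction on `K` with `FR.S_MSs`, from `1` to `b + 1`, with the invariant: `J₀ ≤ J`, `Fml`, a point, `2 ≤ d i`,
`d i ≤ K ∨ d i = b + 2`, `Flag L d J K B`, `DimGe J (δ - loss K d)`,
`loss K d = ∑_(i, d i ≤ K) (b - c - card (FI d (d i - 1)))`,
and: if all `d i ≤ K` then `card (FI d K) = b - c`.
(`card (FI d m) = ∑_j min m (d j - 1)`: `ChAux.card_FI`.)  Step `d`, `K` to `d'`, `K + 1`: for `d i ≤ K`: `d' i = d i`, and
`card (FI d' (d i - 1)) = card (FI d (d i - 1))`, because `min (d i - 1) (d' j - 1) = min (d i - 1) (d j - 1)` for all `j` (if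
`d' j ≠ d j` then `d j = b + 2`, `d' j = K + 1`, both `> d i`; `d i ≤ b + 2`).  For the new `i` (`d' i = K + 1`, `d i = b + 2`):
`card (FI d' (d' i - 1)) = card (FI d' K) = card (FI d K)` (`min K (d' j - 1) = min K (d j - 1)`).  So
`loss (K + 1) d' = loss K d + card {d' i = K + 1} * (b - c - card (FI d K))`: `DimGe J' (δ - loss (K + 1) d')` (`tMono`,
`Nat.sub_sub`).  If all `d' i ≤ K + 1` and some `d i = b + 2`: last claim of `FR.S_MSs`: `card (FI d K) = b - c`, and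
`card (FI d' (K + 1)) = card (FI d' K) = card (FI d K)` (all `d' j - 1 ≤ K`).  If all `d i ≤ K`: then `d' = d` (every `i` is determined)
and `card (FI d (K + 1)) = card (FI d K)`.
END, `K = b + 1`: if some `d i = b + 2`: at a point `z`, `finrank (Fj L (b + 1) z) = card (FI d (b + 1)) ≥ (c - 1) + (b + 1)`, against
`U.S_FB` (2).  So all `d i ≤ b + 1`; `∑ (d i - 1) = card (FI d (b + 1)) = b - c`, `∑ d i = b`, so `d i ≤ b`; `Flag L d J b B`
(`UpAux.flag_mono`).  `b - c - card (FI d (d i - 1)) = ∑_j (d j - 1) - ∑_j min (d i - 1) (d j - 1) = ∑_j (d j - d i)` (truncated):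
`loss = ∑_i ∑_j (d j - d i)`. -/
def S_MX : Prop :=
  ∀ (N c b : ℕ) (I J₀ : Ideal (Sx N)) (x : Vx N), 1 ≤ c → I.IsPrime → IsHom I → Smooth I c →
    U.Fml I J₀ c b x → (∃ z ∈ zer J₀, z ≠ 0) → ∀ L : Loc I x c,
    (∀ z ∈ zer J₀, z ≠ 0 → ∀ ξ : Fin c → ℂ, ξ ≠ 0 → U.qv L ξ 0 z ≠ 0) → ∀ δ : ℕ, DimGe J₀ δ →
    ∃ (d : Fin c → ℕ) (J : Ideal (Sx N)) (B : Fin c → Fin c → ℂ),
      (∀ i, 2 ≤ d i) ∧ ∑ i, d i = b ∧ J₀ ≤ J ∧ U.Fml I J c b x ∧ (∃ z ∈ zer J, z ≠ 0) ∧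
      U.Flag L d J b B ∧ DimGe J (δ - ∑ i, ∑ j, (d j - d i))

/-- (SI) THE SECTIONS OF A FLAG.

PROOF.  `d i ≤ a` (`∑ d i = a`).  For every `i`: `U.S_Lf` with `K = d i - 1 ≥ 1`, `η = B i`; `Flag L d J (d i - 1) B` (`UpAux.flag_mono`),
`q_(B i)^(d i - 1)(z) ∈ F_(d i - 1)(z)` (`Flag.mem`): `sig i`, a section of degree `d i`.
Independence at `z`: as in `U/Up.lean` (`UpAux.indep`, with `T = Fin c`, or the docstring of `U.S_Up`): let `∑ b_i sig i (z) = 0`, `b ≠ 0`;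
the pairs `(f_i, w_i)` of `U.S_Lf` satisfy the equation of `U.S_Psi`, so `∑ b_i (f_i, w_i) = 0`.  `κ` = the maximum of the `d i` with
`b_i ≠ 0` (`≥ 2`), `θ = ∑_(d i = κ) b_i B i ≠ 0`: the `w`-part is `q_(B i)^(d i - 2)(z)` minus an element of `F_(d i - 2)(z)`, so
`q_θ^(κ-2)(z) ∈ F_(κ-2)(z)`; `U.S_FB` (4) with `j = κ - 2 < a`: `θ ∈ span {B i | d i ≤ κ - 1}`: contradiction to `Flag.bas`. -/
def S_SI : Prop :=
  ∀ (N c a : ℕ) (I J : Ideal (Sx N)) (x : Vx N), 1 ≤ c → I.IsPrime → IsHom I → Smooth I c →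
    U.Fml I J c a x → ∀ (L : Loc I x c) (d : Fin c → ℕ) (B : Fin c → Fin c → ℂ), (∀ i, 2 ≤ d i) →
    ∑ i, d i = a → U.Flag L d J a B → ∃ sig : Fin c → (Vx N → Vx N),
      (∀ i, IsSect I J (d i) (sig i)) ∧
      ∀ z ∈ zer J, z ≠ 0 → LinearIndependent ℂ fun i => sig i z

/-! ## 2. Numerical splitting -/

/-- (SJ) A SPLIT CONORMAL BUNDLE OVER `J`.

PROOF.  As in the proof of `mNN` (`M/NN.lean`), `K = FractionRing (Sx N ⧸ J)`, `π = piK J`: `S_NCnv` (`Q = c`): `σ`, `δ` with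
`δ i = d i`, `NDat N c c K I J π σ δ`; `S_NRec` with `Q = c`; `Li_zero`, `S_NRel` (`finrank (Li … 0 j m) = finrank (Lam I J j m)`).
`h i j m = finrank (Li I π σ i j m)`, `H m = finrank (gr J m)`.  CLAIM: for `i ≤ c`, all `j`, for large `m`:
`h i j m = ∑_(A ∈ powersetCard j {l | i ≤ l}) H (m - ∑_(l ∈ A) d l)` (`l : Fin c`).  Descending induction on `i`.  `i = c`: for `j ≥ 1`
`c < c + j`: `h c j m = 0` (third part of `S_NRec`), and `powersetCard j ∅ = ∅`; `j = 0`: `h c 0 m = h 0 0 m` (second part) `= H m`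
(`Lam I J 0 m` is `gr J m`: see `mNN` / the case `j = 0` of `S_KVL`, `S_KPV`).  Step from `i + 1` to `i`: `j = 0`: second part.  `j + 1`: for
`m = m' + d i` (`m` large): `h i (j + 1) m = h (i+1) (j + 1) m + h (i+1) j (m - d i)`, and the subsets of `{l ≥ i}` with `j + 1` elements
are those of `{l ≥ i + 1}` and the `insert i A`, `A` with `j` elements (`Finset.powersetCard_succ_insert`);
`m - d i - ∑_A = m - ∑_(insert i A)`.  `i = 0` is the statement (`{l | 0 ≤ l} = univ`). -/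
def S_SJ : Prop :=
  ∀ (N c : ℕ) (I J : Ideal (Sx N)) (d : Fin c → ℕ) (sig : Fin c → (Vx N → Vx N)), I.IsPrime →
    IsHom I → Smooth I c → J.IsPrime → IsHom J → I ≤ J → (∃ z ∈ zer J, z ≠ 0) → (∀ i, 1 ≤ d i) →
    (∀ i, IsSect I J (d i) (sig i)) →
    (∀ z ∈ zer J, z ≠ 0 → LinearIndependent ℂ fun i => sig i z) →
    ∀ j : ℕ, ∀ᶠ m : ℕ in Filter.atTop, Module.finrank ℂ (Lam I J j m) =
      ∑ A ∈ Finset.powersetCard j (Finset.univ : Finset (Fin c)),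
        Module.finrank ℂ (gr J (m - ∑ i ∈ A, d i))

/-- (KJ) THE KOSZUL RELATION over a subvariety `J` of `X`.

PROOF.  The proof of `S_KII` (`K/KII.lean`, `tKII`) with `J` instead of the second `I`: `S_KRI` for `I`, `J`, `V = W = AF N`
(`LFr I J (AF N)`: the same constant frame), `S_KEul` for `TPf I J (AF N) (AF N)`, `S_KTP`, `S_KPV`. -/
def S_KJ : Prop :=
  ∀ (N c : ℕ) (I J : Ideal (Sx N)), I.IsPrime → IsHom I → Smooth I c → J.IsPrime → IsHom J →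
    I ≤ J → ∃ p : Polynomial ℤ, (1 - PowerSeries.X) ^ (N + 1) *
      (ps (fun k => Module.finrank ℂ (gr I k)) * ps (fun k => Module.finrank ℂ (gr J k))) -
      ∑ i ∈ Finset.range (N + 2), (-1) ^ i * (PowerSeries.X ^ i * ps (hV J (VL I i))) =
        (p : PowerSeries ℤ)

/-- (NS) NUMERICAL SPLITTING.

PROOF.  (1) `S_KVL`: `hV J (VL I i) k = finrank (Lam I J i (k + i))`.  So for large `m` the coefficient `m` of `X^i ps (hV J (VL I i))` is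
`finrank (Lam I J i m) = ∑_(|A| = i) finrank (gr J (m - d_A))` = the coefficient `m` of `esd d i * ps (gr J)` (`BrAux.esd_coeff`); for
`i > c` both are `0`.  So `∑_(i < N + 2) (-1)^i X^i ps (hV J (VL I i)) - (∑_(i < N + 2) (-1)^i esd d i) ps (gr J)` is a polynomial, and
`∑_i (-1)^i esd d i = ∏_i (1 - X^(d i))` (`c ≤ N + 1`: `c` independent gradients in `ℂ^(N+1)`, or: `esd d i = 0` for `i > c`, and if
`c > N + 1` then `Smooth` is contradictory at a point; `Finset.prod_one_sub…`/`Finset.prod_add`, see `SDV` for this identity).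
(2) `S_KJ`: `(1 - X)^(N+1) ps (gr I) ps (gr J) - ∏ (1 - X^(d i)) ps (gr J) = p`, a polynomial.
(3) `S_WQP` (closed `zWQP`) for `J`, `δ = D + 1`: `QP N c' (gr J) h`, `c' + δ ≤ N + 1`, `h(1) > 0`.  Multiply (2) by `(1 - X)^(N+1)`:
`(1 - X)^c' h ((1 - X)^c q0 - ∏ (1 - X^(d i))) = (1 - X)^(N+1) p` in `ℤ[X]`; cancel `(1 - X)^c'`: `(1 - X)^(N+1-c') ∣ h * (…)`,
`h(1) ≠ 0` (`dvd_of_unit` in `M/PC.lean`): `(1 - X)^(N+1-c') ∣ …`, and `δ ≤ N + 1 - c'`.  (A point of `zer J`: `DimGe J δ`, `1 ≤ δ`,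
see `mNN`, if needed.) -/
def S_NS : Prop :=
  ∀ (N c δ : ℕ) (I J : Ideal (Sx N)) (d : Fin c → ℕ) (q0 : Polynomial ℤ), I.IsPrime → IsHom I →
    Smooth I c → J.IsPrime → IsHom J → I ≤ J → DimGe J δ → 1 ≤ δ →
    QP N c (fun k => Module.finrank ℂ (gr I k)) q0 →
    (∀ j : ℕ, ∀ᶠ m : ℕ in Filter.atTop, Module.finrank ℂ (Lam I J j m) =
      ∑ A ∈ Finset.powersetCard j (Finset.univ : Finset (Fin c)),
        Module.finrank ℂ (gr J (m - ∑ i ∈ A, d i))) →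
    (1 - Polynomial.X : Polynomial ℤ) ^ δ ∣
      (1 - Polynomial.X) ^ c * q0 - ∏ i, (1 - Polynomial.X ^ (d i))

/-- (ND) PROOF.  `1 - X^(d i) = (1 - X) g_i`, `g_i = ∑_(k < d i) X^k` (`Polynomial.geom_sum…`), `g_i(1) = d i`;
`(1 - X)^(c+1) ∣ (1 - X)^c (q0 - ∏ g_i)`: cancel `(1 - X)^c` (domain), evaluate at `1`. -/
def S_ND : Prop :=
  ∀ (c : ℕ) (d : Fin c → ℕ) (q0 : Polynomial ℤ),
    (1 - Polynomial.X : Polynomial ℤ) ^ (c + 1) ∣
      (1 - Polynomial.X) ^ c * q0 - ∏ i, (1 - Polynomial.X ^ (d i)) →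
    q0.eval 1 = ((∏ i, d i : ℕ) : ℤ)

/-! ## 3. One general point -/

/-- (As) ONE GENERAL POINT, exact dimensions (any codimension).

PROOF.  As `FR.S_As` (`FR/SpecZ.lean`), with `S_MX` instead of `FR.S_MS`.  `UN.S_U6a` (closed `UN.tU6a …`): `g ∉ I`; `x ∈ zer I`,
`g(x) ≠ 0`, `x ≠ 0`: all lines through `x` are free.  `L : Loc I x c` (`mLoc`).  As in `FR.S_MT`: `BDat.cone` at `x`, the cut cone `J₀`
(`zWCut`): `DimGe J₀ (N - b)`, `Fml I J₀ c b x`, a point (`N - b ≥ b ≥ 1`); `FR.S_B2` (`δ = N - b ≥ b`); `S_MX`: `d`, `J`, `B`,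
`m = N - b - ∑_i ∑_j (d j - d i)`.
(1) `c + 1 ≤ m`: `S_SI`, `S_SJ`, `S_NS` (`δ = c + 1`, `S_Mono`), `S_ND`: `∏ d i = q0(1) = D`.
(2) `b - c + 1 ≤ m`: `lam'` with `lf lam' = lam ∈ J`, `ξ i = U.xv L (B i)`, independent, `Ty` and `IsLine` from `U.S_VT`, the degree from
`Fml.deg` (as `FR.S_MT`, `U/V3.lean`): `FR.FTm I d x lam' ξ J m`.  `ξ i ∈ CN I x`; `FR.S_FE`: `F`, `f`; `UN.S_U5`: local generation;
`UN.S_U6w` (`FR/U6.lean`): `J'`, `LC`; `FR.S_R7`. -/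
def S_As : Prop :=
  ∀ (N c b D : ℕ) (I : Ideal (Sx N)) (q0 : Polynomial ℤ), FR.BDat c b D I q0 → 2 * b ≤ N →
    ∃ d : Fin c → ℕ, (∀ i, 2 ≤ d i) ∧ ∑ i, d i = b ∧
      (c + 1 ≤ N - b - ∑ i, ∑ j, (d j - d i) → ∏ i, d i = D) ∧
      (b - c + 1 ≤ N - b - ∑ i, ∑ j, (d j - d i) →
        ∃ G : Fin c → Sx N, (∀ i, (G i).IsHomogeneous (d i)) ∧ I = Ideal.span (Set.range G))

/-! ## 4. `c = 2`, `D = 2 (b - 2)` -/

/-- (H2) THE HILBERT FUNCTION of a complete intersection `(2, s)`.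

PROOF.  Both sides in `PowerSeries ℤ` (sum over `k` of the value times `X^k`).  Left side: `p / (1 - X)^(n+1)`, `p = ∑_i X^(jj i)`
(`PowerSeries.mk_add_choose_mul_one_sub_pow_eq_one`).  `#{i | jj i = j}` is `1` for `j = 0`, `2` for `1 ≤ j < s`, `1` for `j = s`, `0` for
`j > s` (differences of `min (2 s) (2 j + 1)`), so `p = 1 + 2 (X + … + X^(s-1)) + X^s = (1 + X)(1 + … + X^(s-1))`.  Right side
(`hcG ![2, s] N k`: four subsets): `(1 - X^2)(1 - X^s) / (1 - X)^(N+1)`, `N + 1 = n + 3`.  Multiply both by `(1 - X)^(n+3)`. -/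
def S_H2 : Prop :=
  ∀ (n s : ℕ) (jj : Fin (2 * s) → ℕ), 2 ≤ s →
    (∀ j : ℕ, (Finset.univ.filter fun i => jj i ≤ j).card = min (2 * s) (j * 2 + 1)) → ∀ k : ℕ,
    ((∑ i, if jj i ≤ k then (n + (k - jj i)).choose n else 0 : ℕ) : ℤ) = hcG ![2, s] (n + 2) k

/-- (Pr) A quadric in `I` is prime.

PROOF.  `F ≠ 0` is a product of primes (`MvPolynomial` over a field is a unique factorization domain,
`UniqueFactorizationMonoid.exists_prime_factors`, or `exists_mem_factors`…); `F ∈ I`, `I` prime, `I ≠ ⊤`: some prime factor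
`p ∈ I`, `F = p q`.  `totalDegree p + totalDegree q = 2` (`MvPolynomial.totalDegree_mul_of_isDomain`, `F` a form of degree `2`,
`F ≠ 0`).  `totalDegree q = 0`: `q` is a nonzero constant, a unit, and `span {F} = span {p}` is prime.  `totalDegree q ≥ 1`:
`totalDegree p ≤ 1`: `p = p_0 + p_1` (components), both in `I` (`IsHom`); `p_1 = 0` (no linear forms), `p_0` is a constant in `I`, `0`: so
`p = 0`, contradiction. -/
def S_Pr : Prop :=
  ∀ (N : ℕ) (I : Ideal (Sx N)), I.IsPrime → IsHom I → (∀ F ∈ I, F.IsHomogeneous 1 → F = 0) →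
    ∀ F ∈ I, F.IsHomogeneous 2 → F ≠ 0 → (Ideal.span {F}).IsPrime

/-- (E1) THE HILBERT FUNCTION OF `(2, s)` IMPLIES COMPLETE INTERSECTION.

PROOF.  `dim (S_k ∩ 𝔞) = binom (N + k) N - finrank (gr 𝔞 k)` for every ideal `𝔞` (rank-nullity for `S_k → gr 𝔞 k`).
(1) `hcG ![2, s] N 2 < binom (N + 2) N` (`= binom (N+2) N - 1 - [s = 2]`), so there is `F ∈ I`, `F ≠ 0`, a form of degree `2`.  `S_Pr`.
(2) `UN.S_FHc` for `![F]`: `finrank (gr (F) k) = hcG ![2] N k`; `hcG ![2, s] N s = hcG ![2] N s - hcG ![2] N 0 = hcG ![2] N s - 1` (`s ≥ 2`; four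
subsets).  So `finrank (gr I s) < finrank (gr (F) s)` and there is a form `G ∈ I` of degree `s`, `G ∉ (F)`.
(3) `![F, G]` is a regular sequence (`F ≠ 0`; `(F)` prime, `G ∉ (F)`): `UN.S_FHc`: `finrank (gr (F, G) k) = hcG ![2, s] N k = finrank (gr I k)`.
`(F, G) ≤ I` and equal dimensions of the intersections with `S_k` for all `k`: every form of `I` is in `(F, G)`; `I` is homogeneous.
`Set.range ![F, G]`. -/
def S_E1 : Prop :=
  ∀ (N s : ℕ) (I : Ideal (Sx N)), 2 ≤ s → I.IsPrime → IsHom I →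
    (∀ F ∈ I, F.IsHomogeneous 1 → F = 0) →
    (∀ k, (Module.finrank ℂ (gr I k) : ℤ) = hcG ![2, s] N k) →
    ∃ G : Fin 2 → Sx N, (∀ i, (G i).IsHomogeneous (![2, s] i)) ∧ I = Ideal.span (Set.range G)

/-! ## 5. The theorem -/

/-- (A1) ARITHMETIC for `c = 2`, `D ≥ 2 (b - 2) + 1`.

PROOF.  `u = d 0 ≤ v = d 1` (symmetric), `∑_i ∑_j (d j - d i) = v - u`.  `N ≥ D + 3 ≥ 2 b`, `N - b - (v - u) ≥ 2 u ≥ 4`.  Second claim:
`D = u v ≥ 2 (u + v - 2) + 1` gives `(u - 2)(v - 2) ≥ 1`, `u ≥ 3`; `N - b - (v - u) ≥ u v + 3 - 2 v ≥ u + v - 1`: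
`(u - 3)(v - 1) + 1 ≥ 0`. -/
def S_A1 : Prop :=
  ∀ (N b D : ℕ) (d : Fin 2 → ℕ), (∀ i, 2 ≤ d i) → ∑ i, d i = b → D + 3 ≤ N →
    2 * (b - 2) + 1 ≤ D → 2 + 1 ≤ N - b - ∑ i, ∑ j, (d j - d i) ∧
      (∏ i, d i = D → b - 2 + 1 ≤ N - b - ∑ i, ∑ j, (d j - d i))

/-- THEOREM C2.

PROOF.  `FR.S_W1` (`c = 2`): `b`, `q0`, `BDat`.
(a) CLAIM: `D ≥ 4` and `2 (b - 2) ≤ D`, `b ≥ 3`.  If `N ≤ 6`: `b + 3 ≤ N` (`BDat.bN`), so `2 b ≤ N` (`b ≤ 3`; `N = 5`: `b ≤ 2`; `N = 4`: `b ≤ 1`,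
against `BDat.cb`), and `FR.S_MT` (`2 c ≤ b`) gives `4 ≤ b`: contradiction.  So `N ≥ 7 = 3 c + 1`: `FR.S_Ca`: `D (b - 2) ≤ 2 ∑_(j < D) (D - 1 - 2 j)`.
`D = 1, 2, 3`: the right side is `0, 2, 4`, so `b ≤ 3`, `2 b ≤ N`, contradiction as before.  `D ≥ 4`: if `b - 2 = 0`: `2 b ≤ N`,
contradiction; so `1 ≤ b - 2` and `UK.S_Ns` (`c = 2`, `s = b - 2`): `(s - 1) 2 + 2 ≤ D`, i.e. `2 s ≤ D`.
(b) `D = 2 s`, `s = b - 2 ≥ 2`: `FR.S_W1q`: `q0'(1) = D s / 2 = s^2 = ∑_(j < 2 s) (2 s - 1 - 2 j)` (truncated; `∑_(j < s)` of the odd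
numbers).  `CE.S_CE`: `jj`; `S_H2` (`n = N - 2`), `S_E1`.
(c) `D ≥ 2 s + 1`: `2 b = 2 s + 4 ≤ D + 3 ≤ N`.  `S_As`: `d`; `S_A1`: `∏ d i = D`, and then the second claim: `G`. -/
def S_C2 : Prop :=
  ∀ (N n D : ℕ) (I : Ideal (Sx N)), N = n + 2 → 1 ≤ D → D + 1 ≤ n → I.IsPrime → IsHom I →
    (∀ F ∈ I, F.IsHomogeneous 1 → F = 0) → Smooth I 2 → U.HasDeg I n D →
    ∃ (d : Fin 2 → ℕ) (G : Fin 2 → Sx N), (∀ i, 2 ≤ d i ∧ (G i).IsHomogeneous (d i)) ∧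
      I = Ideal.span (Set.range G)

end Pool.Agent.Lib.MP_776403_ag.SD.C2
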